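import Pool.Agent.Run7.h688.CG.LMa

/-! CG2, task LM: weighted first moment of L(1, chi_D). -/

set_option autoImplicit false

namespace Run7.h688.CG

open Finset Filter Pool.Agent.H38R2.CG Pool.Agent.H38R2.CG2 Pool.Agent.H38R2.CG.LM2h
  Pool.Agent.H38R2.CG2.ERRh
open scoped Classical

theorem sum_inv_le (N : ℕ) : ∑ m ∈ Icc 1 N, 1 / (m : ℝ) ≤ 1 + Real.log N := by
  have h := harmonic_le_one_add_log N
  rw [harmonic_eq_sum_Icc] at h
  push_cast at h
  simpa using h

/-- the sum over rough square roots -/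
theorem rough_sum {z : ℕ} (hz : 2 ≤ z) (R K0 : ℕ) (hK0 : 1 ≤ K0) (α β : ℝ) (hα : 0 ≤ α)
    (hβ : 0 ≤ β) :
    ∑ k ∈ (Icc 1 R).filter (fun k => k.Coprime (Qz z)),
      ((k : ℝ) ^ 2)⁻¹ * (α + if K0 < k then β else 0) ≤ α * (1 + 1 / z) + β / K0 := by
  have h1 : ∀ k ∈ (Icc 1 R).filter (fun k => k.Coprime (Qz z)),
      ((k : ℝ) ^ 2)⁻¹ * (α + if K0 < k then β else 0) =
      α * ((k : ℝ) ^ 2)⁻¹ + β * (if K0 < k then ((k : ℝ) ^ 2)⁻¹ else 0) := by
    intro k _
    split_ifs <;> ring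
  rw [Finset.sum_congr rfl h1, Finset.sum_add_distrib, ← Finset.mul_sum, ← Finset.mul_sum]
  have hpos : ∀ k : ℕ, (0 : ℝ) ≤ ((k : ℝ) ^ 2)⁻¹ := fun k => by positivity
  have e1 : ∀ M : ℕ, 1 ≤ M → ∑ k ∈ Ioc M R, ((k : ℝ) ^ 2)⁻¹ ≤ 1 / M := by
    intro M hM
    rcases le_total M R with h | h
    · refine (sum_Ioc_inv_sq_le_sub (by omega) h).trans ?_
      have : (0 : ℝ) ≤ (R : ℝ)⁻¹ := by positivity
      rw [one_div]
      linarith
    · rw [Finset.Ioc_eq_empty_of_le h, Finset.sum_empty]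
      positivity
  have h2 : ∑ k ∈ (Icc 1 R).filter (fun k => k.Coprime (Qz z)), ((k : ℝ) ^ 2)⁻¹ ≤ 1 + 1 / z := by
    calc _ ≤ ∑ k ∈ insert 1 (Ioc z R), ((k : ℝ) ^ 2)⁻¹ := by
          apply Finset.sum_le_sum_of_subset_of_nonneg
          · intro k hk
            rw [mem_filter, mem_Icc] at hk
            rw [mem_insert, mem_Ioc]
            by_cases h1 : k = 1
            · exact Or.inl h1
            · right
              refine ⟨?_, hk.1.2⟩
              obtain ⟨p, hp, hpk⟩ := Nat.exists_prime_and_dvd h1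
              have h3 : ¬ p ≤ z := by
                intro h4
                have h5 := (prime_dvd_Qz hz hp).2 h4
                have h6 : p ∣ Nat.gcd k (Qz z) := Nat.dvd_gcd hpk h5
                rw [hk.2] at h6
                exact hp.one_lt.ne' (Nat.dvd_one.1 h6)
              have h4 := Nat.le_of_dvd (by omega) hpk
              omega
          · intro k _ _
            exact hpos k
      _ ≤ 1 + 1 / z := by
          rw [Finset.sum_insert (by rw [mem_Ioc]; omega)]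
          have := e1 z (by omega)
          norm_num
          norm_num at this
          exact this
  have h3 : ∑ k ∈ (Icc 1 R).filter (fun k => k.Coprime (Qz z)),
      (if K0 < k then ((k : ℝ) ^ 2)⁻¹ else 0) ≤ 1 / K0 := by
    rw [← Finset.sum_filter]
    refine le_trans ?_ (e1 K0 hK0)
    apply Finset.sum_le_sum_of_subset_of_nonneg
    · intro k hk
      rw [mem_filter, mem_filter, mem_Icc] at hk
      rw [mem_Ioc]
      exact ⟨hk.2, hk.1.1.2⟩
    · intro k _ _
      exact hpos k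
  have h4 := mul_le_mul_of_nonneg_left h2 hα
  have h5 := mul_le_mul_of_nonneg_left h3 hβ
  have h6 : β * (1 / K0) = β / K0 := by ring
  linarith

theorem final_num {e ε u : ℝ} (he0 : 0 < e) (he1 : e ≤ 1) (he2 : 8 * e ≤ ε) (hu : 0 ≤ u) :
    (1 + e) * ((1 + e) * (1 + u) + e + e) + e ≤ (1 + ε) * (1 + 4 * u) := by
  have h10 : (1 + e) * (1 + e) ≤ 1 + 3 * e := by nlinarith
  have h11 : (1 + e) * (1 + e) * (1 + u) ≤ (1 + 3 * e) * (1 + u) :=
    mul_le_mul_of_nonneg_right h10 (by linarith)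
  have h12 : (1 + 8 * e) * (1 + 4 * u) ≤ (1 + ε) * (1 + 4 * u) :=
    mul_le_mul_of_nonneg_right (by linarith) (by linarith)
  nlinarith [mul_nonneg he0.le hu]

theorem T2_LM : P2_V0 → P2_V1 → P2_WT → P_N3a → P2_LM := by
  intro hV0 hV1 hWT hN3a a ha z r hz hr η hη hη1 C0 hC0 ε hε
  obtain ⟨C, hC, hN3⟩ := hN3a
  obtain ⟨c, hc⟩ : ∃ c, c = cc a := ⟨_, rfl⟩
  have hc0 : 0 < c := hc ▸ cc_pos ha
  have hc1 : c < 1 / 32 := hc ▸ cc_lt ha
  have hth : th a = 1 - 8 * c := by rw [hc]; rfl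
  have hz0 : (2 : ℝ) ≤ z := by exact_mod_cast hz
  obtain ⟨A, hA⟩ : ∃ A, A = (PiR z r)⁻¹ := ⟨_, rfl⟩
  have hA0 : 0 < A := hA ▸ inv_pos.2 (PiR_pos z r)
  obtain ⟨B, hB0, hB⟩ := AS_bound z
  obtain ⟨e, he⟩ : ∃ e, e = min 1 (ε / 8) := ⟨_, rfl⟩
  have he0 : 0 < e := by rw [he]; positivity
  have he1 : e ≤ 1 := he ▸ min_le_left _ _
  have he2 : 8 * e ≤ ε := by
    have : e ≤ ε / 8 := he ▸ min_le_right _ _
    linarith
  -- convergence of the smooth sums
  obtain ⟨y0, hy0⟩ := eventually_atTop.1 ((AS_tendsto z r).eventually_lt_const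
    (show (PiR z r)⁻¹ < A * (1 + e) by rw [← hA]; nlinarith))
  obtain ⟨K0, hK0⟩ := exists_nat_ge (B / (e * A) + 1)
  have hK1 : 1 ≤ K0 := by
    have : (1 : ℝ) ≤ K0 := by
      have : 0 ≤ B / (e * A) := by positivity
      linarith
    exact_mod_cast this
  have hK0r : (0 : ℝ) < K0 := by exact_mod_cast hK1
  have hBK : B / K0 ≤ e * A := by
    rw [div_le_iff₀ hK0r]
    have h1 : B / (e * A) ≤ K0 := by linarith
    rw [div_le_iff₀ (by positivity)] at h1
    linarith
  obtain ⟨X1, hX1⟩ := hV1 a ha z r hr η hη hη1 C0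
  obtain ⟨X5, hX5⟩ := WW_big ha z hη C0 (B / (e * A) + 2 / e)
  obtain ⟨X6, hX6⟩ := eventually_atTop.1 ((ev_log (c / 2) (by positivity)).and
    ((ev_const c hc0 (8 * C / (e * A))).and ((ev_const (1 / 2) (by norm_num)
      ((y0 + 1 : ℕ) * (K0 : ℝ) ^ 2 * 2)).and (eventually_ge_atTop 3))))
  refine ⟨max X1 (max X5 X6), fun X hX ρ hS => ?_⟩
  simp only [ge_iff_le, max_le_iff] at hX
  obtain ⟨l1, l5, l6⟩ := hX
  have hX1 := hX1 X l1 ρ hS
  obtain ⟨hX3', hX5⟩ := hX5 X l5
  obtain ⟨hG, hWW⟩ := hX5 (PA a X) (cc a) ρ hS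
  obtain ⟨g1, g2, g3, -⟩ := hX6 X l6
  rw [← hc] at hWW hS hX1
  have hXr : (3 : ℝ) ≤ X := by exact_mod_cast hX3'
  have hX0 : (0 : ℝ) < X := by linarith
  have hX1' : (1 : ℝ) ≤ X := by linarith
  have hlX : 0 ≤ Real.log X := Real.log_nonneg hX1'
  -- the length of the sum
  obtain ⟨N, hN⟩ : ∃ N, N = ⌊(X : ℝ) ^ (1 - 6 * c)⌋₊ := ⟨_, rfl⟩
  have hp1 : (X : ℝ) ^ (1 / 2 : ℝ) ≤ (X : ℝ) ^ (1 - 6 * c) :=
    Real.rpow_le_rpow_of_exponent_le hX1' (by linarith)
  have hp2 : (1 : ℝ) ≤ (X : ℝ) ^ (1 - 6 * c) := Real.one_le_rpow hX1' (by linarith)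
  have hN1 : 1 ≤ N := by
    rw [hN]
    exact Nat.le_floor (by simpa using hp2)
  have hN1r : (1 : ℝ) ≤ N := by exact_mod_cast hN1
  have hNle : (N : ℝ) ≤ (X : ℝ) ^ (1 - 6 * c) := by
    rw [hN]
    exact Nat.floor_le (by positivity)
  have hNge : (X : ℝ) ^ (1 - 6 * c) ≤ 2 * N := by
    have h1 : (X : ℝ) ^ (1 - 6 * c) < N + 1 := by
      rw [hN]
      exact Nat.lt_floor_add_one _
    linarith
  have hNX : (N : ℝ) ≤ X := by
    refine hNle.trans ?_
    calc (X : ℝ) ^ (1 - 6 * c) ≤ (X : ℝ) ^ (1 : ℝ) :=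
          Real.rpow_le_rpow_of_exponent_le hX1' (by linarith)
      _ = X := Real.rpow_one _
  have hNy : y0 * K0 ^ 2 ≤ N := by
    have h1 : ((y0 + 1 : ℕ) : ℝ) * (K0 : ℝ) ^ 2 * 2 ≤ 2 * N := (g3.trans hp1).trans hNge
    have h2 : ((y0 * K0 ^ 2 : ℕ) : ℝ) ≤ N := by
      push_cast at h1 ⊢
      have : 0 ≤ (K0 : ℝ) ^ 2 := by positivity
      linarith
    exact_mod_cast h2
  -- weights
  have hwt : ∀ D ∈ DD z r X η, 0 ≤ wt ρ D := by
    intro D hD
    have := mem_DD hD
    exact (hWT z X (PA a X) c C0 ρ (by omega) (by linarith) hS D (by omega)).1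
  have hFD : ∀ D ∈ FD z r X η, D ∈ DD z r X η ∧ IsFund D := fun D hD => by
    unfold FD at hD
    exact mem_filter.1 hD
  have hwF : ∀ D ∈ FD z r X η, 0 ≤ wt ρ D := fun D hD => hwt D (hFD D hD).1
  obtain ⟨W, hW⟩ : ∃ W, W = ∑ D ∈ FD z r X η, wt ρ D := ⟨_, rfl⟩
  have hW0 : 0 ≤ W := hW ▸ Finset.sum_nonneg hwF
  obtain ⟨w, hw⟩ : ∃ w, w = WW z X η ρ := ⟨_, rfl⟩
  rw [← hw] at hWW
  have hp3 : 0 < (X : ℝ) ^ (1 - c / 2) := by positivity
  have hWW1 : B * (X : ℝ) ^ (1 - c / 2) ≤ e * A * w := by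
    have h1 : B / (e * A) * (X : ℝ) ^ (1 - c / 2) ≤ w := by
      have : 0 ≤ 2 / e * (X : ℝ) ^ (1 - c / 2) := by positivity
      linarith
    rw [div_mul_eq_mul_div, div_le_iff₀ (by positivity)] at h1
    linarith
  have hWW2 : 2 * (X : ℝ) ^ (1 - c / 2) ≤ e * w := by
    have h1 : 2 / e * (X : ℝ) ^ (1 - c / 2) ≤ w := by
      have : 0 ≤ B / (e * A) * (X : ℝ) ^ (1 - c / 2) := by positivity
      linarith
    rw [div_mul_eq_mul_div, div_le_iff₀ (by positivity)] at h1
    linarith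
  have hw0 : 0 < w := by
    have : 0 < e * w := by linarith
    exact (mul_pos_iff_of_pos_left he0).1 this
  have hWw : W ≤ (1 + e) * w := by
    have e7 := sum_DD hV0 hr.1 hη (by omega : 1 ≤ X) (by linarith : c ≤ 1) hS
    have e8 := (abs_le.1 e7).2
    have e10 : (X : ℝ) ^ c ≤ (X : ℝ) ^ (1 - c / 2) :=
      Real.rpow_le_rpow_of_exponent_le hX1' (by linarith)
    have e11 : W ≤ ∑ D ∈ DD z r X η, wt ρ D := by
      rw [hW]
      unfold FD
      exact Finset.sum_le_sum_of_subset_of_nonneg (Finset.filter_subset _ _)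
        (fun D hD _ => hwt D hD)
    rw [← hw] at e8
    linarith
  -- truncation
  obtain ⟨E, hE⟩ : ∃ E, E = C * √(2 * X : ℝ) * Real.log (2 * X) / N := ⟨_, rfl⟩
  have hEle : E ≤ e * A := by
    rw [hE, div_le_iff₀ (by linarith)]
    have h1 : √(2 * X : ℝ) ≤ 2 * (X : ℝ) ^ (1 / 2 : ℝ) := by
      rw [Real.sqrt_le_left (by positivity), mul_pow, ← Real.rpow_natCast ((X : ℝ) ^ (1 / 2 : ℝ)),
        ← Real.rpow_mul hX0.le]
      norm_num
      linarith
    have h2 : Real.log (2 * X) ≤ 2 * Real.log X := by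
      rw [Real.log_mul (by norm_num) hX0.ne']
      have := Real.log_le_log (by norm_num : (0 : ℝ) < 2) (by linarith : (2 : ℝ) ≤ X)
      linarith
    have h3 : Real.log X ≤ (X : ℝ) ^ c := by
      have h4 : (X : ℝ) ^ (c / 2) ≤ (X : ℝ) ^ c :=
        Real.rpow_le_rpow_of_exponent_le hX1' (by linarith)
      linarith
    have h4 : 8 * C ≤ e * A * (X : ℝ) ^ c := by
      rw [div_le_iff₀ (by positivity)] at g2
      linarith
    have h5 : 0 ≤ Real.log (2 * X) := Real.log_nonneg (by linarith)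
    calc C * √(2 * X : ℝ) * Real.log (2 * X) ≤
        C * (2 * (X : ℝ) ^ (1 / 2 : ℝ)) * (2 * (X : ℝ) ^ c) := by
          apply mul_le_mul _ (by linarith) h5 (by positivity)
          exact mul_le_mul_of_nonneg_left h1 hC.le
      _ = (8 * C) * ((X : ℝ) ^ (1 / 2 : ℝ) * (X : ℝ) ^ c) / 2 := by ring
      _ ≤ (e * A * (X : ℝ) ^ c) * ((X : ℝ) ^ (1 / 2 : ℝ) * (X : ℝ) ^ c) / 2 := by gcongr
      _ = e * A * ((X : ℝ) ^ (1 / 2 + 2 * c)) / 2 := by
          have : (X : ℝ) ^ (1 / 2 + 2 * c) =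
              (X : ℝ) ^ c * ((X : ℝ) ^ (1 / 2 : ℝ) * (X : ℝ) ^ c) := by
            rw [← Real.rpow_add hX0, ← Real.rpow_add hX0]
            congr 1
            ring
          rw [this]
          ring
      _ ≤ e * A * ((X : ℝ) ^ (1 - 6 * c)) / 2 := by
          have : (X : ℝ) ^ (1 / 2 + 2 * c) ≤ (X : ℝ) ^ (1 - 6 * c) :=
            Real.rpow_le_rpow_of_exponent_le hX1' (by linarith)
          gcongr
      _ ≤ e * A * (2 * N) / 2 := by gcongr
      _ = e * A * N := by ring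
  have t1 : ∑ D ∈ FD z r X η, wt ρ D * Lone D ≤
      ∑ D ∈ FD z r X η, wt ρ D * ∑ n ∈ Icc 1 N, (chi D n : ℝ) / n + W * (e * A) := by
    rw [hW, Finset.sum_mul, ← Finset.sum_add_distrib]
    apply Finset.sum_le_sum
    intro D hD
    obtain ⟨hD1, hD2⟩ := hFD D hD
    have h1 := (abs_le.1 (hN3 D hD2 N hN1)).2
    obtain ⟨d1, d2, d3⟩ := mem_DD hD1
    have hD3 : (D : ℝ) ≤ 2 * X := by exact_mod_cast d2.trans (floor_le_two hη hη1)
    have hD4 : (1 : ℝ) < D := by exact_mod_cast hD2.1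
    have h2 : C * √(D : ℝ) * Real.log D / N ≤ E := by
      rw [hE]
      have h3 : 0 ≤ Real.log D := Real.log_nonneg hD4.le
      gcongr
    rw [← mul_add]
    apply mul_le_mul_of_nonneg_left _ (hwF D hD)
    linarith
  -- splitting
  obtain ⟨T, hT⟩ : ∃ T : ℕ → ℝ, T = fun m => ∑ D ∈ FD z r X η,
    wt ρ D * ((jacobiSym (D : ℤ) m : ℤ) : ℝ) := ⟨_, rfl⟩
  obtain ⟨g, hg⟩ : ∃ g : ℕ → ℝ, g = fun n => (chi (r : ℤ) n : ℝ) / n := ⟨_, rfl⟩
  have hoddm : ∀ m : ℕ, m.Coprime (Qz z) → Odd m := by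
    intro m hm
    have h2Q : 2 ∣ Qz z := dvd_trans (by norm_num) (dvd16 z)
    have := Nat.Coprime.coprime_dvd_right h2Q hm
    exact Nat.coprime_two_right.1 this
  have t2 : ∑ D ∈ FD z r X η, wt ρ D * ∑ n ∈ Icc 1 N, (chi D n : ℝ) / n =
      ∑ m ∈ (Icc 1 N).filter (fun m => m.Coprime (Qz z)), 1 / (m : ℝ) * (AS z g (N / m) * T m) := by
    have h1 : ∀ D ∈ FD z r X η, wt ρ D * ∑ n ∈ Icc 1 N, (chi D n : ℝ) / n =
        ∑ m ∈ (Icc 1 N).filter (fun m => m.Coprime (Qz z)), 1 / (m : ℝ) * (AS z g (N / m) *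
          (wt ρ D * ((jacobiSym (D : ℤ) m : ℤ) : ℝ))) := by
      intro D hD
      obtain ⟨hD1, hD2⟩ := hFD D hD
      obtain ⟨d1, d2, d3⟩ := mem_DD hD1
      rw [sum_split hz, Finset.mul_sum]
      apply Finset.sum_congr rfl
      intro m hm
      rw [mem_filter, mem_Icc] at hm
      have h2 : ∀ s ∈ (Icc 1 (N / m)).filter (fun s => Sm z s),
          (chi (D : ℤ) (s * m) : ℝ) / ((s * m : ℕ) : ℝ) =
          (1 / (m : ℝ) * ((jacobiSym (D : ℤ) m : ℤ) : ℝ)) * g s := by
        intro s hs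
        rw [mem_filter, mem_Icc] at hs
        rw [Pool.Agent.H38R2.CG.N2h.chi_mul _ (by omega) (by omega), chi_congr hz d3 hs.2,
          KRh.chi_odd (hoddm m hm.2), hg]
        push_cast
        have : (m : ℝ) ≠ 0 := by
          have : m ≠ 0 := by omega
          exact_mod_cast this
        have : (s : ℝ) ≠ 0 := by
          have : s ≠ 0 := by omega
          exact_mod_cast this
        field_simp
      rw [Finset.sum_congr rfl h2, ← Finset.mul_sum]
      unfold AS
      ring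
    rw [Finset.sum_congr rfl h1, Finset.sum_comm]
    apply Finset.sum_congr rfl
    intro m _
    rw [← Finset.mul_sum, ← Finset.mul_sum, hT]
  have hASB : ∀ y, |AS z g y| ≤ B := fun y => by
    rw [hg]
    exact (AS_abs z r y).trans (hB y)
  -- non-squares
  have t3 : ∑ m ∈ ((Icc 1 N).filter (fun m => m.Coprime (Qz z))).filter (fun m => ¬ IsSquare m),
      1 / (m : ℝ) * (AS z g (N / m) * T m) ≤ e * A * w := by
    calc _ ≤ ∑ m ∈ ((Icc 1 N).filter (fun m => m.Coprime (Qz z))).filter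
          (fun m => ¬ IsSquare m), 1 / (m : ℝ) * (B * (X : ℝ) ^ (1 - c)) := by
          apply Finset.sum_le_sum
          intro m hm
          rw [mem_filter, mem_filter, mem_Icc] at hm
          obtain ⟨⟨⟨m1, m2⟩, m3⟩, m4⟩ := hm
          have h1 := (hX1 m m1 m3 m4).2 (by
            have h2 : (m : ℝ) ≤ N := by exact_mod_cast m2
            rw [hth]
            refine (h2.trans hNle).trans (le_of_eq ?_)
            congr 1
            ring)
          apply mul_le_mul_of_nonneg_left _ (by positivity)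
          refine (le_abs_self _).trans ?_
          rw [abs_mul]
          have h2 : |T m| ≤ (X : ℝ) ^ (1 - c) := by rw [hT]; exact h1
          exact mul_le_mul (hASB _) h2 (abs_nonneg _) hB0.le
      _ ≤ ∑ m ∈ Icc 1 N, 1 / (m : ℝ) * (B * (X : ℝ) ^ (1 - c)) := by
          rw [Finset.filter_filter]
          exact Finset.sum_le_sum_of_subset_of_nonneg (Finset.filter_subset _ _)
            (fun _ _ _ => by positivity)
      _ ≤ (1 + Real.log N) * (B * (X : ℝ) ^ (1 - c)) := by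
          rw [← Finset.sum_mul]
          exact mul_le_mul_of_nonneg_right (sum_inv_le N) (by positivity)
      _ ≤ (X : ℝ) ^ (c / 2) * (B * (X : ℝ) ^ (1 - c)) := by
          apply mul_le_mul_of_nonneg_right _ (by positivity)
          have := Real.log_le_log (by linarith : (0 : ℝ) < N) hNX
          linarith
      _ = B * (X : ℝ) ^ (1 - c / 2) := by
          have : (X : ℝ) ^ (1 - c / 2) = (X : ℝ) ^ (c / 2) * (X : ℝ) ^ (1 - c) := by
            rw [← Real.rpow_add hX0]
            congr 1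
            ring
          rw [this]
          ring
      _ ≤ e * A * w := hWW1
  -- squares
  have t4 : ∑ m ∈ ((Icc 1 N).filter (fun m => m.Coprime (Qz z))).filter IsSquare,
      1 / (m : ℝ) * (AS z g (N / m) * T m) ≤ W * (A * (1 + e) * (1 + 1 / z) + e * A) := by
    rw [sum_squares]
    calc _ ≤ ∑ k ∈ (Icc 1 (Nat.sqrt N)).filter (fun k => k.Coprime (Qz z)),
          W * (((k : ℝ) ^ 2)⁻¹ * (A * (1 + e) + if K0 < k then B else 0)) := by
          apply Finset.sum_le_sum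
          intro k hk
          rw [mem_filter, mem_Icc] at hk
          have hT0 : 0 ≤ T (k ^ 2) ∧ T (k ^ 2) ≤ W := by
            have h1 : ∀ D : ℕ, 0 ≤ ((jacobiSym (D : ℤ) (k ^ 2) : ℤ) : ℝ) ∧
                ((jacobiSym (D : ℤ) (k ^ 2) : ℤ) : ℝ) ≤ 1 := by
              intro D
              refine ⟨?_, (le_abs_self _).trans (abs_jac _ _)⟩
              rw [jacobiSym.pow_right]
              push_cast
              positivity
            rw [hT]
            constructor
            · exact Finset.sum_nonneg fun D hD => mul_nonneg (hwF D hD) (h1 D).1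
            · rw [hW]
              apply Finset.sum_le_sum
              intro D hD
              calc _ ≤ wt ρ D * 1 := mul_le_mul_of_nonneg_left (h1 D).2 (hwF D hD)
                _ = wt ρ D := mul_one _
          have hAS : AS z g (N / k ^ 2) ≤ A * (1 + e) + if K0 < k then B else 0 := by
            split_ifs with h
            · have := (le_abs_self _).trans (hASB (N / k ^ 2))
              have : 0 ≤ A * (1 + e) := by positivity
              linarith
            · rw [add_zero, hg]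
              apply (hy0 _ _).le
              rw [Nat.le_div_iff_mul_le (Nat.one_le_pow _ _ hk.1.1)]
              refine le_trans ?_ hNy
              exact Nat.mul_le_mul_left _ (Nat.pow_le_pow_left (by omega) 2)
          have hub : 0 ≤ A * (1 + e) + (if K0 < k then B else 0) := by
            split_ifs <;> positivity
          have h3 : AS z g (N / k ^ 2) * T (k ^ 2) ≤
              (A * (1 + e) + if K0 < k then B else 0) * W := by
            calc AS z g (N / k ^ 2) * T (k ^ 2) ≤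
                (A * (1 + e) + if K0 < k then B else 0) * T (k ^ 2) :=
                  mul_le_mul_of_nonneg_right hAS hT0.1
              _ ≤ _ := mul_le_mul_of_nonneg_left hT0.2 hub
          have h4 : 1 / ((k ^ 2 : ℕ) : ℝ) = ((k : ℝ) ^ 2)⁻¹ := by
            push_cast
            rw [one_div]
          rw [h4]
          calc ((k : ℝ) ^ 2)⁻¹ * (AS z g (N / k ^ 2) * T (k ^ 2)) ≤
              ((k : ℝ) ^ 2)⁻¹ * ((A * (1 + e) + if K0 < k then B else 0) * W) :=
                mul_le_mul_of_nonneg_left h3 (by positivity)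
            _ = _ := by ring
      _ ≤ W * (A * (1 + e) * (1 + 1 / z) + B / K0) := by
          rw [← Finset.mul_sum]
          exact mul_le_mul_of_nonneg_left (rough_sum hz _ K0 hK1 _ _ (by positivity) hB0.le) hW0
      _ ≤ _ := by
          apply mul_le_mul_of_nonneg_left _ hW0
          linarith
  have t5 : ∑ m ∈ (Icc 1 N).filter (fun m => m.Coprime (Qz z)),
      1 / (m : ℝ) * (AS z g (N / m) * T m) ≤
      W * (A * (1 + e) * (1 + 1 / z) + e * A) + e * A * w := by
    rw [← Finset.sum_filter_add_sum_filter_not _ IsSquare]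
    linarith
  rw [t2] at t1
  rw [← hw]
  have h6 : (1 + ε) * (1 + 4 / z) * w / PiR z r = (1 + ε) * (1 + 4 / z) * w * A := by
    rw [hA, div_eq_mul_inv]
  rw [h6]
  have hz1 : 0 ≤ 1 / (z : ℝ) := by positivity
  have h7 : W * (A * (1 + e) * (1 + 1 / z) + e * A + e * A) ≤
      ((1 + e) * w) * (A * (1 + e) * (1 + 1 / z) + e * A + e * A) := by
    apply mul_le_mul_of_nonneg_right hWw
    positivity
  have h8 : ((1 + e) * ((1 + e) * (1 + 1 / z) + e + e) + e : ℝ) ≤ (1 + ε) * (1 + 4 / z) := by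
    have h9 : (4 : ℝ) / z = 4 * (1 / z) := by ring
    rw [h9]
    exact final_num he0 he1 he2 hz1
  have h9 : w * A * ((1 + e) * ((1 + e) * (1 + 1 / z) + e + e) + e) ≤
      w * A * ((1 + ε) * (1 + 4 / z)) := mul_le_mul_of_nonneg_left h8 (by positivity)
  have h10 : ((1 + e) * w) * (A * (1 + e) * (1 + 1 / z) + e * A + e * A) + e * A * w =
      w * A * ((1 + e) * ((1 + e) * (1 + 1 / z) + e + e) + e) := by ring
  have h11 : W * (A * (1 + e) * (1 + 1 / z) + e * A) + W * (e * A) =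
      W * (A * (1 + e) * (1 + 1 / z) + e * A + e * A) := by ring
  calc _ ≤ _ := t1
    _ ≤ (W * (A * (1 + e) * (1 + 1 / z) + e * A) + e * A * w) + W * (e * A) :=
        add_le_add_left t5 _
    _ = W * (A * (1 + e) * (1 + 1 / z) + e * A + e * A) + e * A * w := by rw [← h11]; ring
    _ ≤ ((1 + e) * w) * (A * (1 + e) * (1 + 1 / z) + e * A + e * A) + e * A * w :=
        add_le_add_left h7 _
    _ = w * A * ((1 + e) * ((1 + e) * (1 + 1 / z) + e + e) + e) := h10
    _ ≤ w * A * ((1 + ε) * (1 + 4 / z)) := h9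
    _ = _ := by ring

end Run7.h688.CG
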