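import Pool.Agent.Run7.h688.CG.Tools
import Pool.Agent.H38R2.CG.N2

/-! CG2, task LM: smooth and rough parts, Euler product. -/

set_option autoImplicit false

namespace Run7.h688.CG

open Finset Filter Pool.Agent.H38R2.CG Pool.Agent.H38R2.CG2 Pool.Agent.H38R2.CG.LM2h
  Pool.Agent.H38R2.CG2.ERRh
open scoped Classical

/-- all primes dividing `s` are at most `z` -/
def Sm (z s : ℕ) : Prop := ∀ p, p.Prime → p ∣ s → p ≤ z

theorem prime_dvd_Qz {z p : ℕ} (hz : 2 ≤ z) (hp : p.Prime) : p ∣ Qz z ↔ p ≤ z := by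
  constructor
  · intro h
    by_cases h2 : p = 2
    · omega
    · have := (sq_dvd_Qz hp h h2).1
      rw [mem_filter, mem_Icc] at this
      exact this.1.2
  · intro h
    by_cases hl2 : p = 2
    · rw [hl2]
      exact dvd_trans (by norm_num) (dvd16 z)
    · have hl3 : 3 ≤ p := by
        have := hp.two_le
        omega
      unfold Qz
      apply Dvd.dvd.mul_left
      refine dvd_trans (dvd_pow_self p (by norm_num)) (Finset.dvd_prod_of_mem (fun l => l ^ 2) ?_)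
      rw [mem_filter, mem_Icc]
      exact ⟨⟨hl3, h⟩, hp⟩

theorem sm_coprime {z s m : ℕ} (hz : 2 ≤ z) (hs : Sm z s) (hm : m.Coprime (Qz z)) :
    s.Coprime m := by
  by_contra h
  obtain ⟨p, hp, h1, h2⟩ := Nat.Prime.not_coprime_iff_dvd.1 h
  have h3 := (prime_dvd_Qz hz hp).2 (hs p hp h1)
  have h4 : p ∣ Nat.gcd m (Qz z) := Nat.dvd_gcd h2 h3
  rw [hm] at h4
  exact hp.one_lt.ne' (Nat.dvd_one.1 h4)

theorem sm_unique {z s m s' m' : ℕ} (hz : 2 ≤ z) (hs : Sm z s) (hm : m.Coprime (Qz z))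
    (hs' : Sm z s') (hm' : m'.Coprime (Qz z)) (hs0 : 0 < s) (h : s * m = s' * m') :
    s = s' ∧ m = m' := by
  have h1 : s ∣ s' := (sm_coprime hz hs hm').dvd_of_dvd_mul_right (h ▸ dvd_mul_right s m)
  have h2 : s' ∣ s := (sm_coprime hz hs' hm).dvd_of_dvd_mul_right (h ▸ dvd_mul_right s' m')
  have h3 := Nat.dvd_antisymm h1 h2
  subst h3
  exact ⟨rfl, Nat.eq_of_mul_eq_mul_left hs0 h⟩

/-- smooth part -/
def sp (z n : ℕ) : ℕ := ∏ p ∈ n.primeFactors.filter (fun p => p ≤ z), p ^ (n.factorization p)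
/-- rough part -/
def rp (z n : ℕ) : ℕ := ∏ p ∈ n.primeFactors.filter (fun p => ¬ p ≤ z), p ^ (n.factorization p)

theorem sp_mul_rp (z : ℕ) {n : ℕ} (hn : n ≠ 0) : sp z n * rp z n = n := by
  unfold sp rp
  rw [Finset.prod_filter_mul_prod_filter_not]
  exact Nat.prod_factorization_pow_eq_self hn

theorem sp_sm (z n : ℕ) : Sm z (sp z n) := by
  intro p hp h
  obtain ⟨q, hq, h1⟩ := (hp.prime.dvd_finsetProd_iff _).1 h
  rw [mem_filter] at hq
  have h2 := (Nat.prime_dvd_prime_iff_eq hp (Nat.prime_of_mem_primeFactors hq.1)).1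
    (hp.dvd_of_dvd_pow h1)
  rw [h2]
  exact hq.2

theorem rp_rough {z : ℕ} (hz : 2 ≤ z) (n : ℕ) : (rp z n).Coprime (Qz z) := by
  apply Nat.Coprime.prod_left
  intro p hp
  rw [mem_filter] at hp
  have h1 := Nat.prime_of_mem_primeFactors hp.1
  apply Nat.Coprime.pow_left
  rw [Nat.Prime.coprime_iff_not_dvd h1, prime_dvd_Qz hz h1]
  exact hp.2

/-- splitting of a sum -/
theorem sum_split {z : ℕ} (hz : 2 ≤ z) (N : ℕ) (F : ℕ → ℝ) :
    ∑ n ∈ Icc 1 N, F n = ∑ m ∈ (Icc 1 N).filter (fun m => m.Coprime (Qz z)),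
      ∑ s ∈ (Icc 1 (N / m)).filter (fun s => Sm z s), F (s * m) := by
  rw [Finset.sum_sigma']
  symm
  refine Finset.sum_bij' (fun x _ => x.2 * x.1) (fun n _ => (⟨rp z n, sp z n⟩ : (_ : ℕ) × ℕ))
    ?_ ?_ ?_ ?_ ?_
  · rintro ⟨m, s⟩ h
    simp only [mem_sigma, mem_filter, mem_Icc] at h ⊢
    obtain ⟨⟨⟨h1, h2⟩, h3⟩, ⟨h4, h5⟩, h6⟩ := h
    refine ⟨Nat.mul_pos h4 h1, ?_⟩
    exact (Nat.le_div_iff_mul_le h1).1 h5
  · intro n hn
    rw [mem_Icc] at hn
    have h0 : n ≠ 0 := by omega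
    have h1 := sp_mul_rp z h0
    have h2 : 0 < sp z n := Nat.pos_of_ne_zero (fun h => by rw [h, zero_mul] at h1; omega)
    have h3 : 0 < rp z n := Nat.pos_of_ne_zero (fun h => by rw [h, mul_zero] at h1; omega)
    simp only [mem_sigma, mem_filter, mem_Icc]
    refine ⟨⟨⟨h3, ?_⟩, rp_rough hz n⟩, ⟨h2, ?_⟩, sp_sm z n⟩
    · refine le_trans ?_ hn.2
      calc rp z n = 1 * rp z n := (one_mul _).symm
        _ ≤ sp z n * rp z n := Nat.mul_le_mul_right _ h2
        _ = n := h1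
    · rw [Nat.le_div_iff_mul_le h3, h1]
      exact hn.2
  · rintro ⟨m, s⟩ h
    simp only [mem_sigma, mem_filter, mem_Icc] at h ⊢
    obtain ⟨⟨⟨h1, h2⟩, h3⟩, ⟨h4, h5⟩, h6⟩ := h
    have h0 : s * m ≠ 0 := Nat.mul_ne_zero (by omega) (by omega)
    have h7 := sm_unique hz h6 h3 (sp_sm z (s * m)) (rp_rough hz (s * m)) h4 (sp_mul_rp z h0).symm
    rw [← h7.1, ← h7.2]
  · intro n hn
    rw [mem_Icc] at hn
    exact sp_mul_rp z (by omega)
  · rintro ⟨m, s⟩ _
    rfl

/-- the squares -/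
theorem sum_squares (Q N : ℕ) (G : ℕ → ℝ) :
    ∑ m ∈ ((Icc 1 N).filter (fun m => m.Coprime Q)).filter IsSquare, G m =
      ∑ k ∈ (Icc 1 (Nat.sqrt N)).filter (fun k => k.Coprime Q), G (k ^ 2) := by
  symm
  refine Finset.sum_bij' (fun k _ => k ^ 2) (fun m _ => Nat.sqrt m) ?_ ?_ ?_ ?_ ?_
  · intro k hk
    rw [mem_filter, mem_Icc] at hk
    rw [mem_filter, mem_filter, mem_Icc]
    refine ⟨⟨⟨Nat.one_le_pow _ _ hk.1.1, ?_⟩, Nat.Coprime.pow_left 2 hk.2⟩, ⟨k, sq k⟩⟩
    exact Nat.le_sqrt'.1 hk.1.2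
  · intro m hm
    rw [mem_filter, mem_filter, mem_Icc] at hm
    obtain ⟨⟨⟨h1, h2⟩, h3⟩, k, rfl⟩ := hm
    rw [Nat.sqrt_eq, mem_filter, mem_Icc]
    refine ⟨⟨?_, ?_⟩, Nat.Coprime.coprime_dvd_left (dvd_mul_right k k) h3⟩
    · rcases Nat.eq_zero_or_pos k with h | h
      · subst h; simp at h1
      · exact h
    · rw [Nat.le_sqrt]
      exact h2
  · intro k _
    exact Nat.sqrt_eq' k
  · intro m hm
    rw [mem_filter, mem_filter, mem_Icc] at hm
    obtain ⟨-, k, rfl⟩ := hm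
    rw [Nat.sqrt_eq, sq]
  · intro k _
    rfl

/-! ### The Euler product -/

/-- the smooth sums -/
noncomputable def AS (z : ℕ) (g : ℕ → ℝ) (y : ℕ) : ℝ := ∑ s ∈ (Icc 1 y).filter (fun s => Sm z s), g s

theorem AS_eq (z : ℕ) (g : ℕ → ℝ) (y : ℕ) :
    AS z g y = ∑ s ∈ range (y + 1), (Nat.smoothNumbers (z + 1)).indicator g s := by
  unfold AS
  have h1 : (Icc 1 y).filter (fun s => Sm z s) =
      (range (y + 1)).filter (fun s => s ∈ Nat.smoothNumbers (z + 1)) := by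
    ext s
    rw [mem_filter, mem_filter, mem_Icc, mem_range, Nat.mem_smoothNumbers']
    unfold Sm
    constructor
    · rintro ⟨⟨h1, h2⟩, h3⟩
      exact ⟨by omega, fun p hp hps => by have := h3 p hp hps; omega⟩
    · rintro ⟨h1, h2⟩
      refine ⟨⟨?_, by omega⟩, fun p hp hps => by have := h2 p hp hps; omega⟩
      by_contra h0
      have h0 : s = 0 := by omega
      subst h0
      obtain ⟨p, hp1, hp2⟩ := Nat.exists_infinite_primes (z + 1)
      have := h2 p hp2 (dvd_zero p)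
      omega
  rw [h1, Finset.sum_filter]
  apply Finset.sum_congr rfl
  intro s _
  by_cases h : s ∈ Nat.smoothNumbers (z + 1)
  · rw [if_pos h, Set.indicator_of_mem h]
  · rw [if_neg h, Set.indicator_of_notMem h]

/-- `chi r n / n` as a monoid homomorphism -/
noncomputable def fhom (r : ℤ) : ℕ →* ℝ where
  toFun n := (chi r n : ℝ) / n
  map_one' := by
    rw [Pool.Agent.H38R2.CG.N2h.chi_one]
    norm_num
  map_mul' a b := by
    rcases Nat.eq_zero_or_pos a with ha | ha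
    · subst ha; simp
    rcases Nat.eq_zero_or_pos b with hb | hb
    · subst hb; simp
    rw [Pool.Agent.H38R2.CG.N2h.chi_mul r (by omega) (by omega)]
    push_cast
    rw [mul_div_mul_comm]

noncomputable def ghom : ℕ →* ℝ where
  toFun n := 1 / (n : ℝ)
  map_one' := by norm_num
  map_mul' a b := by
    push_cast
    rw [one_div_mul_one_div]

theorem abs_chi_prime (r : ℤ) {p : ℕ} (hp : p.Prime) : |(chi r p : ℝ)| ≤ 1 := by
  rcases Pool.Agent.H38R2.CG.N2h.chi_prime r hp with h | h | h <;> rw [h] <;> norm_num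

theorem primesBelow_eq (z : ℕ) : (z + 1).primesBelow = (Icc 2 z).filter Nat.Prime := by
  ext p
  rw [Nat.mem_primesBelow, mem_filter, mem_Icc]
  constructor
  · rintro ⟨h1, h2⟩
    exact ⟨⟨h2.two_le, by omega⟩, h2⟩
  · rintro ⟨⟨-, h1⟩, h2⟩
    exact ⟨by omega, h2⟩

theorem PiR_pos (z r : ℕ) : 0 < PiR z r := by
  unfold PiR
  apply Finset.prod_pos
  intro l hl
  rw [mem_filter] at hl
  have h1 : (2 : ℝ) ≤ l := by exact_mod_cast hl.2.two_le
  have h2 := (abs_le.1 (abs_chi_prime (r : ℤ) hl.2)).2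
  have h3 : (chi r l : ℝ) / l ≤ 1 / 2 := by
    rw [div_le_div_iff₀ (by linarith) (by norm_num)]
    linarith
  linarith

theorem AS_tendsto (z r : ℕ) :
    Tendsto (fun y => AS z (fun n => (chi r n : ℝ) / n) y) atTop (nhds (PiR z r)⁻¹) := by
  have h := (EulerProduct.summable_and_hasSum_smoothNumbers_prod_primesBelow_geometric
    (f := fhom r) (fun {p} hp => ?_) (z + 1)).2
  · rw [primesBelow_eq] at h
    have e : ∏ p ∈ (Icc 2 z).filter Nat.Prime, (1 - fhom r p)⁻¹ = (PiR z r)⁻¹ := by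
      unfold PiR
      rw [Finset.prod_inv_distrib]
      rfl
    rw [e] at h
    have h2 : HasSum ((Nat.smoothNumbers (z + 1)).indicator (fun n : ℕ => (chi r n : ℝ) / n))
        (PiR z r)⁻¹ := hasSum_subtype_iff_indicator.1 h
    have h3 := (h2.tendsto_sum_nat).comp (tendsto_add_atTop_nat 1)
    refine h3.congr fun y => ?_
    rw [AS_eq]
    rfl
  · show ‖(chi r p : ℝ) / p‖ < 1
    have h1 : (2 : ℝ) ≤ p := by exact_mod_cast hp.two_le
    rw [norm_div, Real.norm_eq_abs, Real.norm_of_nonneg (by linarith), div_lt_one (by linarith)]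
    have := abs_chi_prime (r : ℤ) hp
    linarith

theorem AS_bound (z : ℕ) : ∃ B : ℝ, 0 < B ∧ ∀ y, AS z (fun n => 1 / (n : ℝ)) y ≤ B := by
  have h := (EulerProduct.summable_and_hasSum_smoothNumbers_prod_primesBelow_geometric
    (f := ghom) (fun {p} hp => ?_) (z + 1)).2
  · have h2 : HasSum ((Nat.smoothNumbers (z + 1)).indicator (fun n : ℕ => 1 / (n : ℝ)))
        (∏ p ∈ (z + 1).primesBelow, (1 - ghom p)⁻¹) := hasSum_subtype_iff_indicator.1 h
    refine ⟨|∏ p ∈ (z + 1).primesBelow, (1 - ghom p)⁻¹| + 1, by positivity, fun y => ?_⟩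
    rw [AS_eq]
    have h3 := h2.summable.sum_le_tsum (range (y + 1)) (fun i _ => ?_)
    · rw [h2.tsum_eq] at h3
      have := le_abs_self (∏ p ∈ (z + 1).primesBelow, (1 - ghom p)⁻¹)
      linarith
    · apply Set.indicator_nonneg
      intro n _
      positivity
  · show ‖1 / (p : ℝ)‖ < 1
    have h1 : (2 : ℝ) ≤ p := by exact_mod_cast hp.two_le
    rw [norm_div, norm_one, Real.norm_of_nonneg (by linarith), div_lt_one (by linarith)]
    linarith

theorem abs_chi_sm (r : ℤ) {n : ℕ} : |(chi r n : ℝ)| ≤ 1 := by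
  unfold chi
  push_cast
  rw [abs_mul]
  have h1 : |((chi2 r : ℤ) : ℝ) ^ padicValNat 2 n| ≤ 1 := by
    rw [abs_pow]
    apply pow_le_one₀ (abs_nonneg _)
    unfold chi2
    split_ifs <;> norm_num
  calc _ ≤ (1 : ℝ) * 1 := mul_le_mul h1 (abs_jac _ _) (abs_nonneg _) zero_le_one
    _ = 1 := one_mul 1

theorem AS_abs (z r y : ℕ) : |AS z (fun n => (chi r n : ℝ) / n) y| ≤ AS z (fun n => 1 / (n : ℝ)) y := by
  unfold AS
  refine (Finset.abs_sum_le_sum_abs _ _).trans (Finset.sum_le_sum fun n _ => ?_)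
  rw [abs_div, Nat.abs_cast]
  exact div_le_div_of_nonneg_right (abs_chi_sm _) (Nat.cast_nonneg _)

/-! ### Dependence of the symbol on the residue class -/

theorem chi_congr {z r D : ℕ} (hz : 2 ≤ z) (hD : D % Qz z = r) {s : ℕ} (hs : Sm z s) :
    chi (D : ℤ) s = chi (r : ℤ) s := by
  have h16 : D % 16 = r % 16 := by
    rw [← hD, Nat.mod_mod_of_dvd _ (dvd16 z)]
  have h2 : chi2 (D : ℤ) = chi2 (r : ℤ) := by
    unfold chi2
    have : (D : ℤ) % 8 = (r : ℤ) % 8 := by omega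
    rw [this]
  induction s using Nat.recOnMul with
  | zero =>
    obtain ⟨p, hp1, hp2⟩ := Nat.exists_infinite_primes (z + 1)
    have := hs p hp2 (dvd_zero p)
    omega
  | one => rw [Pool.Agent.H38R2.CG.N2h.chi_one, Pool.Agent.H38R2.CG.N2h.chi_one]
  | prime p hp =>
    by_cases hp2 : p = 2
    · subst hp2
      have : Fact (Nat.Prime 2) := ⟨Nat.prime_two⟩
      unfold chi
      rw [padicValNat_self, h2]
      simp [jacobiSym.one_right]
    · have hodd := hp.odd_of_ne_two hp2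
      rw [KRh.chi_odd hodd, KRh.chi_odd hodd]
      have h3 : p ∣ Qz z := (prime_dvd_Qz hz hp).2 (hs p hp dvd_rfl)
      have h4 : (D : ℤ) % p = (r : ℤ) % p := by
        have : D % p = r % p := by
          rw [← hD, Nat.mod_mod_of_dvd _ h3]
        exact_mod_cast congrArg (Nat.cast : ℕ → ℤ) this
      rw [jacobiSym.mod_left, h4, ← jacobiSym.mod_left]
  | mul a b iha ihb =>
    have ha : a ≠ 0 := by
      rintro rfl
      obtain ⟨p, hp1, hp2⟩ := Nat.exists_infinite_primes (z + 1)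
      have := hs p hp2 (by simp)
      omega
    have hb : b ≠ 0 := by
      rintro rfl
      obtain ⟨p, hp1, hp2⟩ := Nat.exists_infinite_primes (z + 1)
      have := hs p hp2 (by simp)
      omega
    rw [Pool.Agent.H38R2.CG.N2h.chi_mul _ ha hb, Pool.Agent.H38R2.CG.N2h.chi_mul _ ha hb,
      iha (fun p hp h => hs p hp (Dvd.dvd.mul_right h b)),
      ihb (fun p hp h => hs p hp (Dvd.dvd.mul_left h a))]

end Run7.h688.CG
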