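import Pool.Agent.Run7.h688.CG.Tools

/-! CG2, task M1L: weighted first moment of the ideal counts, lower bound. -/

set_option autoImplicit false

namespace Run7.h688.CG

open Finset Filter Pool.Agent.H38R2.CG Pool.Agent.H38R2.CG2 Pool.Agent.H38R2.CG.LM2h
  Pool.Agent.H38R2.CG2.ERRh
open scoped Classical

/-- density of the multiples of the square of a prime -/
theorem lcm_sum {z X : ℕ} {P : Finset ℕ} {δ : ℝ} {C0 : ℕ} {ρ : ℕ → ℝ} (hS : SWt z X P δ C0 ρ)
    (hC0 : 1 ≤ C0) (hG : 0 ≤ GG X ρ) {l : ℕ} (hl : l.Prime) :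
    ∑ d ∈ Finset.Icc 1 X, ρ d / (Nat.lcm d (l ^ 2) : ℝ) ≤ 2 * C0 * GG X ρ * ((l : ℝ) ^ 2)⁻¹ := by
  have hl0 : (0 : ℝ) < l := by exact_mod_cast hl.pos
  have hl1 : (1 : ℝ) ≤ l := by exact_mod_cast hl.one_lt.le
  have h1 : ∀ d ∈ Finset.Icc 1 X, ρ d / (Nat.lcm d (l ^ 2) : ℝ) =
      ((l : ℝ) ^ 2)⁻¹ * (ρ d / d + if l ∣ d then ((l : ℝ) - 1) * (ρ d / d) else 0) := by
    intro d hd
    rw [mem_Icc] at hd
    have hd0 : (0 : ℝ) < d := by exact_mod_cast hd.1
    by_cases h0 : ρ d = 0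
    · rw [h0]
      simp
    obtain ⟨-, -, hsf, -⟩ := hS.supp d h0
    by_cases hld : l ∣ d
    · rw [if_pos hld]
      obtain ⟨k, rfl⟩ := hld
      have hk : Nat.Coprime l k := Nat.coprime_of_squarefree_mul hsf
      have h2 : Nat.lcm (l * k) (l ^ 2) = l ^ 2 * k := by
        rw [sq, Nat.lcm_mul_left, Nat.lcm_comm, hk.lcm_eq_mul]
        ring
      rw [h2]
      have hk0 : (k : ℝ) ≠ 0 := by
        rintro h
        have : k = 0 := by exact_mod_cast h
        subst this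
        simp at hd
      push_cast
      field_simp
      ring
    · rw [if_neg hld]
      have h2 : Nat.lcm d (l ^ 2) = d * l ^ 2 := by
        apply Nat.Coprime.lcm_eq_mul
        exact Nat.Coprime.pow_right 2 ((Nat.Prime.coprime_iff_not_dvd hl).2 hld).symm
      rw [h2]
      push_cast
      field_simp
      ring
  rw [Finset.sum_congr rfl h1, ← Finset.mul_sum, Finset.sum_add_distrib, ← Finset.sum_filter,
    ← Finset.mul_sum]
  have h2 := hS.div l hl.prime.squarefree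
  rw [hl.primeFactors, Finset.card_singleton, pow_one] at h2
  have h3 := (abs_le.1 h2).2
  have hC : (1 : ℝ) ≤ C0 := by exact_mod_cast hC0
  have h4 : ((l : ℝ) - 1) * ∑ d ∈ (Finset.Icc 1 X).filter (fun d => l ∣ d), ρ d / d ≤
      C0 * GG X ρ := by
    calc ((l : ℝ) - 1) * ∑ d ∈ (Finset.Icc 1 X).filter (fun d => l ∣ d), ρ d / d ≤
        ((l : ℝ) - 1) * (C0 * GG X ρ / l) := mul_le_mul_of_nonneg_left h3 (by linarith)
      _ = (C0 * GG X ρ) * (((l : ℝ) - 1) / l) := by ring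
      _ ≤ (C0 * GG X ρ) * 1 := by
          apply mul_le_mul_of_nonneg_left _ (by positivity)
          rw [div_le_one hl0]
          linarith
      _ = C0 * GG X ρ := mul_one _
  have h5 : ∑ d ∈ Finset.Icc 1 X, ρ d / d = GG X ρ := rfl
  rw [h5, mul_comm]
  apply mul_le_mul_of_nonneg_right _ (by positivity)
  nlinarith

/-- most of the weight is on fundamental discriminants -/
theorem sum_FD (hWT : P2_WT) (hV0 : P2_V0) {z r X : ℕ} {η : ℝ} {P : Finset ℕ} {δ : ℝ} {C0 : ℕ}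
    {ρ : ℕ → ℝ} (hz : 2 ≤ z)
    (hr : FundRes z r) (hη : 0 < η) (hη1 : η ≤ 1) (hX : 1 ≤ X) (hδ : δ ≤ 1)
    (hS : SWt z X P δ C0 ρ) (hC0 : 1 ≤ C0) (hG : 0 ≤ GG X ρ) :
    ∑ D ∈ DD z r X η, wt ρ D - 2 * C0 / z * WW z X η ρ - 4 * √(X : ℝ) * (X : ℝ) ^ δ ≤
      ∑ D ∈ FD z r X η, wt ρ D := by
  have hX0 : (1 : ℝ) ≤ X := by exact_mod_cast hX
  have hQ : (0 : ℝ) < Qz z := by exact_mod_cast Qz_pos z
  have hz0 : (0 : ℝ) < z := by
    have : 0 < z := by omega
    exact_mod_cast this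
  obtain ⟨N, hN⟩ : ∃ N, N = Nat.sqrt (2 * X) := ⟨_, rfl⟩
  have hNle : (N : ℝ) ≤ 2 * √(X : ℝ) := by
    have h5 : N ^ 2 ≤ 2 * X := by
      rw [hN]
      exact Nat.sqrt_le' _
    have h6 : (N : ℝ) ^ 2 ≤ 2 * X := by exact_mod_cast h5
    have h7 : (√(X : ℝ)) ^ 2 = X := Real.sq_sqrt (by linarith)
    have h8 : 0 ≤ √(X : ℝ) := Real.sqrt_nonneg _
    nlinarith [(Nat.cast_nonneg N : (0 : ℝ) ≤ N)]
  have hwt : ∀ D ∈ DD z r X η, 0 ≤ wt ρ D := by
    intro D hD
    have := mem_DD hD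
    exact (hWT z X P δ C0 ρ hX hδ hS D (by omega)).1
  obtain ⟨T, hT⟩ : ∃ T : Finset ℕ, T = (Ioc z N).filter (fun l => l.Prime ∧ ¬ l ∣ Qz z) :=
    ⟨_, rfl⟩
  -- the rest is covered by multiples of squares of primes
  have h1 : ∑ D ∈ DD z r X η, wt ρ D - ∑ D ∈ FD z r X η, wt ρ D =
      ∑ D ∈ (DD z r X η).filter (fun D => ¬ IsFund D), wt ρ D := by
    unfold FD
    rw [← Finset.sum_filter_add_sum_filter_not (DD z r X η) IsFund]
    ring
  have h2 : (DD z r X η).filter (fun D => ¬ IsFund D) ⊆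
      T.biUnion (fun l => (DD z r X η).filter (fun D => l ^ 2 ∣ D)) := by
    intro D hD
    rw [mem_filter] at hD
    obtain ⟨hD1, hD2⟩ := hD
    obtain ⟨d1, d2, d3⟩ := mem_DD hD1
    rw [isFund_iff hr d3 (by omega)] at hD2
    push Not at hD2
    obtain ⟨l, hl, hlQ, hlD⟩ := hD2
    rw [mem_biUnion]
    refine ⟨l, ?_, mem_filter.2 ⟨hD1, hlD⟩⟩
    rw [hT, mem_filter, mem_Ioc]
    refine ⟨⟨?_, ?_⟩, hl, hlQ⟩
    · by_contra hlz
      apply hlQ
      by_cases hl2 : l = 2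
      · rw [hl2]
        exact dvd_trans (by norm_num) (dvd16 z)
      · have hl3 : 3 ≤ l := by
          have := hl.two_le
          omega
        unfold Qz
        apply Dvd.dvd.mul_left
        refine dvd_trans (dvd_pow_self l (by norm_num)) (Finset.dvd_prod_of_mem (fun l => l ^ 2) ?_)
        rw [mem_filter, mem_Icc]
        exact ⟨⟨hl3, by omega⟩, hl⟩
    · rw [hN]
      have h4 := Nat.le_of_dvd (by omega) hlD
      have h5 := floor_le_two (X := X) hη hη1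
      exact Nat.le_sqrt'.2 (by omega)
  have h3 : ∑ D ∈ (DD z r X η).filter (fun D => ¬ IsFund D), wt ρ D ≤
      ∑ l ∈ T, ∑ D ∈ (DD z r X η).filter (fun D => l ^ 2 ∣ D), wt ρ D := by
    calc _ ≤ ∑ D ∈ T.biUnion (fun l => (DD z r X η).filter (fun D => l ^ 2 ∣ D)), wt ρ D := by
          apply Finset.sum_le_sum_of_subset_of_nonneg h2
          intro D hD _
          rw [mem_biUnion] at hD
          obtain ⟨l, -, hl⟩ := hD
          exact hwt D (mem_filter.1 hl).1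
      _ ≤ _ := by
          have : ∀ (T : Finset ℕ), ∑ D ∈ T.biUnion (fun l => (DD z r X η).filter
              (fun D => l ^ 2 ∣ D)), wt ρ D ≤
              ∑ l ∈ T, ∑ D ∈ (DD z r X η).filter (fun D => l ^ 2 ∣ D), wt ρ D := by
            intro T
            induction T using Finset.induction_on with
            | empty => simp
            | insert l T hl ih =>
              rw [Finset.biUnion_insert, Finset.sum_insert hl]
              have h6 := Finset.sum_union_inter (s₁ := (DD z r X η).filter (fun D => l ^ 2 ∣ D))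
                (s₂ := T.biUnion (fun l => (DD z r X η).filter (fun D => l ^ 2 ∣ D))) (f := wt ρ)
              have h7 : 0 ≤ ∑ D ∈ (DD z r X η).filter (fun D => l ^ 2 ∣ D) ∩
                  T.biUnion (fun l => (DD z r X η).filter (fun D => l ^ 2 ∣ D)), wt ρ D := by
                apply Finset.sum_nonneg
                intro D hD
                rw [mem_inter, mem_filter] at hD
                exact hwt D hD.1.1
              linarith
          exact this T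
  have h4 : ∀ l ∈ T, ∑ D ∈ (DD z r X η).filter (fun D => l ^ 2 ∣ D), wt ρ D ≤
      2 * C0 * WW z X η ρ * ((l : ℝ) ^ 2)⁻¹ + 2 * (X : ℝ) ^ δ := by
    intro l hl
    rw [hT, mem_filter, mem_Ioc] at hl
    obtain ⟨-, hlp, hlQ⟩ := hl
    have h5 := hV0 z r X η P δ C0 ρ (l ^ 2) hr.1 hη hX hδ hS (Nat.one_le_pow _ _ hlp.pos)
      (Nat.Coprime.pow_left 2 ((Nat.Prime.coprime_iff_not_dvd hlp).2 hlQ))
    have h6 := (abs_le.1 h5).2
    have h7 := lcm_sum hS hC0 hG hlp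
    have h8 : η * X / Qz z * ∑ d ∈ Finset.Icc 1 X, ρ d / (Nat.lcm d (l ^ 2) : ℝ) ≤
        η * X / Qz z * (2 * C0 * GG X ρ * ((l : ℝ) ^ 2)⁻¹) :=
      mul_le_mul_of_nonneg_left h7 (by positivity)
    have h9 : η * X / Qz z * (2 * C0 * GG X ρ * ((l : ℝ) ^ 2)⁻¹) =
        2 * C0 * WW z X η ρ * ((l : ℝ) ^ 2)⁻¹ := by
      unfold WW
      ring
    linarith
  have hW : 0 ≤ WW z X η ρ := by
    unfold WW
    positivity
  have h5 : ∑ l ∈ T, ∑ D ∈ (DD z r X η).filter (fun D => l ^ 2 ∣ D), wt ρ D ≤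
      2 * C0 / z * WW z X η ρ + 4 * √(X : ℝ) * (X : ℝ) ^ δ := by
    calc _ ≤ ∑ l ∈ T, (2 * C0 * WW z X η ρ * ((l : ℝ) ^ 2)⁻¹ + 2 * (X : ℝ) ^ δ) :=
          Finset.sum_le_sum h4
      _ ≤ ∑ l ∈ Ioc z N, (2 * C0 * WW z X η ρ * ((l : ℝ) ^ 2)⁻¹ + 2 * (X : ℝ) ^ δ) := by
          rw [hT]
          exact Finset.sum_le_sum_of_subset_of_nonneg (Finset.filter_subset _ _)
            (fun _ _ _ => by positivity)
      _ = 2 * C0 * WW z X η ρ * ∑ l ∈ Ioc z N, ((l : ℝ) ^ 2)⁻¹ +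
          ((N - z : ℕ) : ℝ) * (2 * (X : ℝ) ^ δ) := by
          rw [Finset.sum_add_distrib, Finset.mul_sum, Finset.sum_const, Nat.card_Ioc,
            nsmul_eq_mul]
      _ ≤ 2 * C0 * WW z X η ρ * (z : ℝ)⁻¹ + (2 * √(X : ℝ)) * (2 * (X : ℝ) ^ δ) := by
          apply add_le_add
          · apply mul_le_mul_of_nonneg_left _ (by positivity)
            rcases le_total z N with h | h
            · refine (sum_Ioc_inv_sq_le_sub (by omega) h).trans ?_
              have : (0 : ℝ) ≤ (N : ℝ)⁻¹ := by positivity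
              linarith
            · rw [Finset.Ioc_eq_empty_of_le h, Finset.sum_empty]
              positivity
          · apply mul_le_mul_of_nonneg_right _ (by positivity)
            refine le_trans ?_ hNle
            exact_mod_cast Nat.sub_le N z
      _ = _ := by
          rw [div_eq_mul_inv]
          ring
  linarith

theorem T2_M1L : P2_V0 → P2_V1 → P2_WT → P2_NB → P2_SZ → P2_M1L := by
  intro hV0 hV1 hWT hNB hSZ a ha z r hz hr η hη hη1 C0 hC0 ε hε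
  obtain ⟨c, hc⟩ : ∃ c, c = cc a := ⟨_, rfl⟩
  have hc0 : 0 < c := hc ▸ cc_pos ha
  have hc1 : c < 1 / 32 := hc ▸ cc_lt ha
  obtain ⟨X1, hX1⟩ := hV1 a ha z r hr η hη hη1 C0
  obtain ⟨X2, hX2⟩ := hNB a ha (c / 2) (by positivity)
  obtain ⟨X3, hX3⟩ := prodS_size hSZ ha
  obtain ⟨X4, hX4⟩ := PA_large ha z
  obtain ⟨X5, hX5⟩ := WW_big ha z hη C0 (7 / ε)
  refine ⟨max X1 (max X2 (max X3 (max X4 X5))), fun X hX ρ hS s hs => ?_⟩
  simp only [ge_iff_le, max_le_iff] at hX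
  obtain ⟨l1, l2, l3, l4, l5⟩ := hX
  have hX1 := hX1 X l1 ρ hS
  obtain ⟨-, -, h2k, -⟩ := hX2 X l2
  have hX3 := hX3 X l3 s hs
  have hX4 := hX4 X l4
  obtain ⟨hX3', hX5⟩ := hX5 X l5
  obtain ⟨hG, hWW⟩ := hX5 (PA a X) (cc a) ρ hS
  rw [← hc] at hWW hS hX1 hX3
  have hXr : (3 : ℝ) ≤ X := by exact_mod_cast hX3'
  have hX0 : (0 : ℝ) < X := by linarith
  have hX1' : (1 : ℝ) ≤ X := by linarith
  have hsp : ∀ p ∈ s, p.Prime ∧ Odd p := fun p hp =>
    ⟨(hX4 p ((mem_SA hs).1 hp)).1, (hX4 p ((mem_SA hs).1 hp)).2.2.2.1⟩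
  have hsQ : ∀ p ∈ s, p.Prime ∧ ¬ p ∣ Qz z := fun p hp =>
    ⟨(hX4 p ((mem_SA hs).1 hp)).1, (hX4 p ((mem_SA hs).1 hp)).2.2.2.2⟩
  -- expansion
  have e1 : ∑ D ∈ FD z r X η, wt ρ D * ∏ p ∈ s, (1 + (chi D p : ℝ)) =
      ∑ u ∈ s.powerset, ∑ D ∈ FD z r X η,
        wt ρ D * ((jacobiSym (D : ℤ) (prodS u) : ℤ) : ℝ) := by
    rw [Finset.sum_comm]
    apply Finset.sum_congr rfl
    intro D _
    rw [prod_chi D s hsp, Finset.mul_sum]
  have e2 : ∀ u ∈ s.powerset.erase ∅,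
      -(X : ℝ) ^ (1 - c) ≤ ∑ D ∈ FD z r X η,
        wt ρ D * ((jacobiSym (D : ℤ) (prodS u) : ℤ) : ℝ) := by
    intro u hu
    rw [mem_erase, mem_powerset] at hu
    obtain ⟨hu1, hu2⟩ := hu
    have hup : ∀ p ∈ u, p.Prime := fun p hp => (hsp p (hu2 hp)).1
    have h1 := (hX1 (prodS u) (prodS_pos hup) (prodS_coprime fun p hp => hsQ p (hu2 hp)) ?_).2 ?_
    · exact (abs_le.1 h1).1
    · intro hsq
      have h2 : IsSquare (prodS u * prodS ∅) := by
        have : prodS ∅ = 1 := rfl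
        rwa [this, mul_one]
      exact hu1 (isSquare_imp_eq hup (fun p hp => absurd hp (Finset.notMem_empty p)) h2)
    · have h2 : (prodS u : ℝ) ≤ prodS s := by
        exact_mod_cast prodS_mono hu2 (fun p hp => (hsp p hp).1)
      refine (h2.trans hX3).trans ?_
      exact Real.rpow_le_rpow_of_exponent_le hX1' (by linarith)
  have e3 : ∑ D ∈ FD z r X η, wt ρ D * ((jacobiSym (D : ℤ) (prodS ∅) : ℤ) : ℝ) =
      ∑ D ∈ FD z r X η, wt ρ D := by
    apply Finset.sum_congr rfl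
    intro D _
    have : prodS ∅ = 1 := rfl
    rw [this, jacobiSym.one_right]
    norm_num
  have e4 : ∑ D ∈ FD z r X η, wt ρ D - (X : ℝ) ^ (c / 2) * (X : ℝ) ^ (1 - c) ≤
      ∑ D ∈ FD z r X η, wt ρ D * ∏ p ∈ s, (1 + (chi D p : ℝ)) := by
    rw [e1, ← Finset.add_sum_erase _ _ (Finset.empty_mem_powerset s), e3]
    have h1 := Finset.card_nsmul_le_sum (s.powerset.erase ∅) _ _ e2
    have h2 : ((s.powerset.erase ∅).card : ℝ) ≤ (X : ℝ) ^ (c / 2) := by
      have h3 : (s.powerset.erase ∅).card ≤ 2 ^ kA a X := by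
        refine (Finset.card_le_card (Finset.erase_subset _ _)).trans ?_
        rw [Finset.card_powerset, (mem_SA hs).2]
      calc ((s.powerset.erase ∅).card : ℝ) ≤ ((2 ^ kA a X : ℕ) : ℝ) := by exact_mod_cast h3
        _ = (2 : ℝ) ^ kA a X := by push_cast; ring
        _ ≤ _ := h2k
    rw [nsmul_eq_mul] at h1
    have h3 : ((s.powerset.erase ∅).card : ℝ) * (X : ℝ) ^ (1 - c) ≤
        (X : ℝ) ^ (c / 2) * (X : ℝ) ^ (1 - c) :=
      mul_le_mul_of_nonneg_right h2 (by positivity)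
    linarith
  have e5 : (X : ℝ) ^ (c / 2) * (X : ℝ) ^ (1 - c) = (X : ℝ) ^ (1 - c / 2) := by
    rw [← Real.rpow_add hX0]
    congr 1
    ring
  have e6 := sum_FD hWT hV0 hz hr hη hη1 (by omega : 1 ≤ X) (by linarith : c ≤ 1) hS hC0 hG.le
  have e7 := sum_DD hV0 hr.1 hη (by omega : 1 ≤ X) (by linarith : c ≤ 1) hS
  have e8 := (abs_le.1 e7).1
  have e9 : √(X : ℝ) * (X : ℝ) ^ c ≤ (X : ℝ) ^ (1 - c / 2) := by
    rw [Real.sqrt_eq_rpow, ← Real.rpow_add hX0]
    exact Real.rpow_le_rpow_of_exponent_le hX1' (by linarith)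
  have e10 : (X : ℝ) ^ c ≤ (X : ℝ) ^ (1 - c / 2) :=
    Real.rpow_le_rpow_of_exponent_le hX1' (by linarith)
  have e11 : 7 * (X : ℝ) ^ (1 - c / 2) ≤ ε * WW z X η ρ := by
    rw [div_mul_eq_mul_div, div_le_iff₀ hε] at hWW
    linarith
  have e12 : (1 - ε - 2 * C0 / z) * WW z X η ρ = WW z X η ρ - ε * WW z X η ρ -
      2 * C0 / z * WW z X η ρ := by ring
  rw [e12]
  rw [e5] at e4
  linarith

end Run7.h688.CG
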