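import Pool.Agent.Run7.h688.CG.Tools

/-! CG2, task MLOW: second moment of the ideal counts. -/

set_option autoImplicit false

namespace Run7.h688.CG

open Finset Filter Pool.Agent.H38R2.CG Pool.Agent.H38R2.CG2 Pool.Agent.H38R2.CG.LM2h
  Pool.Agent.H38R2.CG2.ERRh
open scoped Classical

/-- pairs of sets, weighted by the intersection -/
theorem pair_sum (hC : P2_COMB) (hP : P2_PAIR) (P : Finset ℕ) (k : ℕ) (hk : 2 * k ≤ P.card)
    (hn : 1 ≤ P.card) :
    ∑ s ∈ P.powersetCard k, ∑ t ∈ P.powersetCard k, ((2 : ℝ) ^ ((s ∩ t).card) - 1) ≤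
      (8 * (k : ℝ) ^ 2 / P.card) * Real.exp (8 * (k : ℝ) ^ 2 / P.card) *
        (P.card.choose k : ℝ) ^ 2 := by
  have h2 : ∀ i : ℕ, (0 : ℝ) ≤ 2 ^ i - 1 := fun i => by
    have : (1 : ℝ) ≤ 2 ^ i := one_le_pow₀ (by norm_num)
    linarith
  refine (hP P k (fun c _ _ => (2 : ℝ) ^ c.card - 1) (fun c _ _ _ _ _ => h2 _)).trans ?_
  obtain ⟨f, hf⟩ : ∃ f : ℕ → ℝ, f = fun i : ℕ => if i ≤ k then ((2 : ℝ) ^ i - 1) *
        (P.card.choose (k - i) : ℝ) ^ 2 else 0 := ⟨_, rfl⟩
  have e1 : ∑ c ∈ P.powerset.filter (fun c => c.card ≤ k), ∑ s ∈ P.powersetCard (k - c.card),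
      ∑ t ∈ P.powersetCard (k - c.card), ((2 : ℝ) ^ c.card - 1) =
      ∑ c ∈ P.powerset, f c.card := by
    rw [Finset.sum_filter]
    apply Finset.sum_congr rfl
    intro c _
    rw [hf]
    simp only
    split_ifs with h
    · rw [Finset.sum_const, Finset.sum_const, Finset.card_powersetCard, nsmul_eq_mul,
        nsmul_eq_mul]
      ring
    · rfl
  rw [e1, Finset.sum_powerset_apply_card f, hf]
  have e2 : ∑ m ∈ range (P.card + 1), P.card.choose m • (if m ≤ k then ((2 : ℝ) ^ m - 1) *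
        (P.card.choose (k - m) : ℝ) ^ 2 else 0) ≤
      ∑ i ∈ Finset.Icc (0 + 1) k, (P.card.choose i : ℝ) * 2 ^ i *
        (P.card.choose (k - i) : ℝ) ^ 2 := by
    calc ∑ m ∈ range (P.card + 1), P.card.choose m • (if m ≤ k then ((2 : ℝ) ^ m - 1) *
        (P.card.choose (k - m) : ℝ) ^ 2 else 0) =
        ∑ m ∈ (range (P.card + 1)).filter (fun m => 1 ≤ m ∧ m ≤ k),
          P.card.choose m • (if m ≤ k then ((2 : ℝ) ^ m - 1) *
        (P.card.choose (k - m) : ℝ) ^ 2 else 0) := by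
          symm
          apply Finset.sum_subset (Finset.filter_subset _ _)
          intro m hm hm2
          rw [mem_filter] at hm2
          by_cases h0 : m = 0
          · subst h0
            simp
          · rw [if_neg (fun h => hm2 ⟨hm, by omega, h⟩), smul_zero]
      _ ≤ ∑ i ∈ Finset.Icc (0 + 1) k, (P.card.choose i : ℝ) * 2 ^ i *
        (P.card.choose (k - i) : ℝ) ^ 2 := by
          have h3 : (range (P.card + 1)).filter (fun m => 1 ≤ m ∧ m ≤ k) = Finset.Icc (0 + 1) k := by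
            ext m
            rw [mem_filter, mem_range, mem_Icc]
            omega
          rw [h3]
          apply Finset.sum_le_sum
          intro m hm
          rw [mem_Icc] at hm
          rw [if_pos hm.2, nsmul_eq_mul]
          have h4 : (0 : ℝ) ≤ (P.card.choose (k - m) : ℝ) ^ 2 := by positivity
          have h5 : (0 : ℝ) ≤ (P.card.choose m : ℝ) := by positivity
          calc (P.card.choose m : ℝ) * (((2 : ℝ) ^ m - 1) * (P.card.choose (k - m) : ℝ) ^ 2) ≤
              (P.card.choose m : ℝ) * ((2 : ℝ) ^ m * (P.card.choose (k - m) : ℝ) ^ 2) := by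
                gcongr
                linarith
            _ = _ := by ring
  refine e2.trans ?_
  have h6 := hC P.card k 0 2 (by norm_num) hn hk
  rw [zero_add, pow_one] at h6
  rw [zero_add]
  have e3 : (4 * 2 * (k : ℝ) ^ 2 / P.card) = 8 * (k : ℝ) ^ 2 / P.card := by norm_num
  rw [e3] at h6
  exact h6

theorem T2_MLOW : P2_V0 → P2_V1 → P2_WT → P2_NB → P2_SZ → P2_COMB → P2_PAIR → P2_MLOW := by
  intro hV0 hV1 hWT hNB hSZ hCO hPA a ha z r hr η hη hη1 C0 hC0 ε hε
  obtain ⟨c, hc⟩ : ∃ c, c = cc a := ⟨_, rfl⟩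
  have hc0 : 0 < c := hc ▸ cc_pos ha
  have hc1 : c < 1 / 32 := hc ▸ cc_lt ha
  obtain ⟨X1, hX1⟩ := hV1 a ha z r hr η hη hη1 C0
  obtain ⟨X2, hX2⟩ := hNB a ha (c / 4) (by positivity)
  obtain ⟨X3, hX3⟩ := prodS_size hSZ ha
  obtain ⟨X4, hX4⟩ := PA_large ha z
  obtain ⟨X5, hX5⟩ := WW_big ha z hη C0 (2 + 6 / ε ^ 3)
  have hlim : Tendsto (fun X : ℕ => (Real.log X) ^ (-((a - 2) / 2))) atTop (nhds 0) :=
    (tendsto_rpow_neg_atTop (by linarith)).comp
      (Real.tendsto_log_atTop.comp tendsto_natCast_atTop_atTop)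
  obtain ⟨X6, hX6⟩ := eventually_atTop.1 (hlim.eventually_lt_const
    (show (0 : ℝ) < min (1 / 8) (ε ^ 3 / 96) by positivity))
  refine ⟨max X1 (max X2 (max X3 (max X4 (max X5 X6)))), fun X hX ρ hS => ?_⟩
  simp only [ge_iff_le, max_le_iff] at hX
  obtain ⟨l1, l2, l3, l4, l5, l6⟩ := hX
  have hX1 := hX1 X l1 ρ hS
  obtain ⟨n1, n2, h2k, -, -, -, n3, -⟩ := hX2 X l2
  have hX3 := hX3 X l3
  have hX4 := hX4 X l4
  obtain ⟨hX3', hX5⟩ := hX5 X l5
  have hX6 := hX6 X l6
  obtain ⟨hG, hWW⟩ := hX5 (PA a X) (cc a) ρ hS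
  rw [← hc] at hWW hS hX1 hX3 n2
  have hXr : (3 : ℝ) ≤ X := by exact_mod_cast hX3'
  have hX0 : (0 : ℝ) < X := by linarith
  have hX1' : (1 : ℝ) ≤ X := by linarith
  obtain ⟨k, hk⟩ : ∃ k, k = kA a X := ⟨_, rfl⟩
  have hk1 : 1 ≤ k := by
    rw [hk]
    unfold kA
    omega
  rw [← hk] at n1 h2k n3
  have hN0 : 0 < NA a X := lt_of_lt_of_le (by positivity) n2
  have hcard : (PA a X).card ≠ 0 := by
    have : 1 ≤ k ^ 2 := Nat.one_le_pow _ _ hk1
    omega
  have h2kn : 2 * k ≤ (PA a X).card := by nlinarith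
  have hsp : ∀ s ∈ SA a X, ∀ p ∈ s, p.Prime ∧ Odd p := fun s hs p hp =>
    ⟨(hX4 p ((mem_SA hs).1 hp)).1, (hX4 p ((mem_SA hs).1 hp)).2.2.2.1⟩
  have hsQ : ∀ s ∈ SA a X, ∀ p ∈ s, p.Prime ∧ ¬ p ∣ Qz z := fun s hs p hp =>
    ⟨(hX4 p ((mem_SA hs).1 hp)).1, (hX4 p ((mem_SA hs).1 hp)).2.2.2.2⟩
  obtain ⟨W, hW⟩ : ∃ W, W = ∑ D ∈ DD z r X η, wt ρ D := ⟨_, rfl⟩
  have hwt : ∀ D ∈ DD z r X η, 0 ≤ wt ρ D := by
    intro D hD
    have := mem_DD hD
    exact (hWT z X (PA a X) c C0 ρ (by omega) (by linarith) hS D (by omega)).1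
  have hW0 : 0 ≤ W := hW ▸ Finset.sum_nonneg hwt
  obtain ⟨J, hJ⟩ : ∃ J : ℕ → Finset ℕ → ℝ, J = fun (D : ℕ) (u : Finset ℕ) =>
      ((jacobiSym (D : ℤ) (prodS u) : ℤ) : ℝ) :=
    ⟨_, rfl⟩
  have hJ1 : ∀ D u, |J D u| ≤ 1 := fun D u => by rw [hJ]; exact abs_jac _ _
  obtain ⟨E, hE⟩ : ∃ E, E = (X : ℝ) ^ (1 - c) := ⟨_, rfl⟩
  have hE0 : 0 ≤ E := by rw [hE]; positivity
  -- the count
  obtain ⟨M, hM⟩ : ∃ M : ℕ → ℝ, M = fun D => MD D (SA a X) (fun _ => 1) := ⟨_, rfl⟩
  have eM : ∀ D : ℕ, M D = ∑ s ∈ SA a X, ∑ u ∈ s.powerset, J D u := by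
    intro D
    rw [hM, hJ]
    simp only
    unfold MD
    apply Finset.sum_congr rfl
    intro s hs
    rw [one_mul, prod_chi D s (hsp s hs)]
  have hcardS : ((SA a X).card : ℝ) = NA a X := by
    unfold SA NA CA
    rw [Finset.card_powersetCard]
  have hpow : ∀ s ∈ SA a X, (s.powerset.card : ℝ) = 2 ^ k := by
    intro s hs
    rw [Finset.card_powerset, (mem_SA hs).2, ← hk]
    push_cast
    ring
  -- first moment
  have m1 : NA a X * W - NA a X * (2 ^ k * E) ≤ ∑ D ∈ DD z r X η, wt ρ D * M D := by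
    have h1 : ∑ D ∈ DD z r X η, wt ρ D * M D =
        ∑ s ∈ SA a X, ∑ u ∈ s.powerset, ∑ D ∈ DD z r X η, wt ρ D * J D u := by
      have h0 : ∀ D ∈ DD z r X η, wt ρ D * M D =
          ∑ s ∈ SA a X, ∑ u ∈ s.powerset, wt ρ D * J D u := by
        intro D _
        rw [eM, Finset.mul_sum]
        apply Finset.sum_congr rfl
        intro s _
        rw [Finset.mul_sum]
      rw [Finset.sum_congr rfl h0, Finset.sum_comm]
      apply Finset.sum_congr rfl
      intro s _
      rw [Finset.sum_comm]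
    rw [h1]
    have h2 : ∀ s ∈ SA a X, W - 2 ^ k * E ≤
        ∑ u ∈ s.powerset, ∑ D ∈ DD z r X η, wt ρ D * J D u := by
      intro s hs
      have h3 : ∀ u ∈ s.powerset, (if u = ∅ then W else 0) - E ≤
          ∑ D ∈ DD z r X η, wt ρ D * J D u := by
        intro u hu
        rw [mem_powerset] at hu
        by_cases h0 : u = ∅
        · rw [if_pos h0, h0, hW]
          have : ∀ D ∈ DD z r X η, wt ρ D * J D ∅ = wt ρ D := by
            intro D _
            rw [hJ]
            have : prodS ∅ = 1 := rfl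
            simp only [this, jacobiSym.one_right]
            norm_num
          rw [Finset.sum_congr rfl this]
          linarith
        · rw [if_neg h0, zero_sub]
          have hup : ∀ p ∈ u, p.Prime := fun p hp => (hsp s hs p (hu hp)).1
          have h4 := (hX1 (prodS u) (prodS_pos hup)
            (prodS_coprime fun p hp => hsQ s hs p (hu hp)) ?_).1 ?_
          · rw [hE, hJ]
            exact (abs_le.1 h4).1
          · intro hsq
            have h2 : IsSquare (prodS u * prodS ∅) := by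
              have : prodS ∅ = 1 := rfl
              rwa [this, mul_one]
            exact h0 (isSquare_imp_eq hup (fun p hp => absurd hp (Finset.notMem_empty p)) h2)
          · have h2 : (prodS u : ℝ) ≤ prodS s := by
              exact_mod_cast prodS_mono hu (fun p hp => (hsp s hs p hp).1)
            refine (h2.trans (hX3 s hs)).trans ?_
            have hth : th a = 1 - 8 * c := by rw [hc]; rfl
            exact Real.rpow_le_rpow_of_exponent_le hX1' (by rw [hth]; linarith)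
      calc W - 2 ^ k * E = ∑ u ∈ s.powerset, ((if u = ∅ then W else 0) - E) := by
            rw [Finset.sum_sub_distrib, Finset.sum_ite_eq' s.powerset ∅,
              if_pos (Finset.empty_mem_powerset s), Finset.sum_const, nsmul_eq_mul, hpow s hs]
        _ ≤ _ := Finset.sum_le_sum h3
    calc NA a X * W - NA a X * (2 ^ k * E) = ∑ s ∈ SA a X, (W - 2 ^ k * E) := by
          rw [Finset.sum_const, nsmul_eq_mul, hcardS]
          ring
      _ ≤ _ := Finset.sum_le_sum h2
  -- second moment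
  have m2 : ∑ D ∈ DD z r X η, wt ρ D * (M D) ^ 2 ≤
      W * ∑ s ∈ SA a X, ∑ t ∈ SA a X, (2 : ℝ) ^ ((s ∩ t).card) +
        (NA a X) ^ 2 * (2 ^ k * 2 ^ k * E) := by
    have h1 : ∑ D ∈ DD z r X η, wt ρ D * (M D) ^ 2 =
        ∑ s ∈ SA a X, ∑ t ∈ SA a X, ∑ u ∈ s.powerset, ∑ v ∈ t.powerset,
          ∑ D ∈ DD z r X η, wt ρ D * (J D u * J D v) := by
      have h0 : ∀ D ∈ DD z r X η, wt ρ D * (M D) ^ 2 =
          ∑ s ∈ SA a X, ∑ t ∈ SA a X, ∑ u ∈ s.powerset, ∑ v ∈ t.powerset,
            wt ρ D * (J D u * J D v) := by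
        intro D _
        rw [eM, sq, Finset.sum_mul_sum, Finset.mul_sum]
        apply Finset.sum_congr rfl
        intro s _
        rw [Finset.mul_sum]
        apply Finset.sum_congr rfl
        intro t _
        rw [Finset.sum_mul_sum, Finset.mul_sum]
        apply Finset.sum_congr rfl
        intro u _
        rw [Finset.mul_sum]
      rw [Finset.sum_congr rfl h0, Finset.sum_comm]
      apply Finset.sum_congr rfl
      intro s _
      rw [Finset.sum_comm]
      apply Finset.sum_congr rfl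
      intro t _
      rw [Finset.sum_comm]
      apply Finset.sum_congr rfl
      intro u _
      rw [Finset.sum_comm]
    rw [h1]
    have h2 : ∀ s ∈ SA a X, ∀ t ∈ SA a X, ∑ u ∈ s.powerset, ∑ v ∈ t.powerset,
          ∑ D ∈ DD z r X η, wt ρ D * (J D u * J D v) ≤
        W * (2 : ℝ) ^ ((s ∩ t).card) + 2 ^ k * 2 ^ k * E := by
      intro s hs t ht
      have h3 : ∀ u ∈ s.powerset, ∀ v ∈ t.powerset,
          ∑ D ∈ DD z r X η, wt ρ D * (J D u * J D v) ≤ (if u = v then W else 0) + E := by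
        intro u hu v hv
        rw [mem_powerset] at hu hv
        by_cases h0 : u = v
        · rw [if_pos h0, hW]
          have : ∀ D ∈ DD z r X η, wt ρ D * (J D u * J D v) ≤ wt ρ D := by
            intro D hD
            have h4 : J D u * J D v ≤ 1 := by
              refine (le_abs_self _).trans ?_
              rw [abs_mul]
              exact mul_le_one₀ (hJ1 D u) (abs_nonneg _) (hJ1 D v)
            calc wt ρ D * (J D u * J D v) ≤ wt ρ D * 1 :=
                  mul_le_mul_of_nonneg_left h4 (hwt D hD)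
              _ = wt ρ D := mul_one _
          have := Finset.sum_le_sum this
          linarith
        · rw [if_neg h0, zero_add]
          have hup : ∀ p ∈ u, p.Prime := fun p hp => (hsp s hs p (hu hp)).1
          have hvp : ∀ p ∈ v, p.Prime := fun p hp => (hsp t ht p (hv hp)).1
          have h4 := (hX1 (prodS u * prodS v) (Nat.mul_pos (prodS_pos hup) (prodS_pos hvp))
            (Nat.Coprime.mul_left (prodS_coprime fun p hp => hsQ s hs p (hu hp))
              (prodS_coprime fun p hp => hsQ t ht p (hv hp))) ?_).1 ?_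
          · have h5 : ∀ D : ℕ, J D u * J D v =
                ((jacobiSym (D : ℤ) (prodS u * prodS v) : ℤ) : ℝ) := by
              intro D
              have : NeZero (prodS u) := ⟨(Nat.pos_iff_ne_zero.1 (prodS_pos hup))⟩
              have : NeZero (prodS v) := ⟨(Nat.pos_iff_ne_zero.1 (prodS_pos hvp))⟩
              rw [jacobiSym.mul_right, hJ]
              push_cast
              rfl
            simp only [h5]
            rw [hE]
            exact (abs_le.1 h4).2
          · intro hsq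
            exact h0 (isSquare_imp_eq hup hvp hsq)
          · have h2 : (prodS u : ℝ) ≤ prodS s := by
              exact_mod_cast prodS_mono hu (fun p hp => (hsp s hs p hp).1)
            have h3 : (prodS v : ℝ) ≤ prodS t := by
              exact_mod_cast prodS_mono hv (fun p hp => (hsp t ht p hp).1)
            push_cast
            calc (prodS u : ℝ) * prodS v ≤ (X : ℝ) ^ (th a + c) * (X : ℝ) ^ (th a + c) :=
                  mul_le_mul (h2.trans (hX3 s hs)) (h3.trans (hX3 t ht)) (Nat.cast_nonneg _)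
                    (by positivity)
              _ = (X : ℝ) ^ (2 * th a + 2 * c) := by
                  rw [← Real.rpow_add hX0]
                  congr 1
                  ring
      calc _ ≤ ∑ u ∈ s.powerset, ∑ v ∈ t.powerset, ((if u = v then W else 0) + E) :=
            Finset.sum_le_sum fun u hu => Finset.sum_le_sum fun v hv => h3 u hu v hv
        _ = ∑ u ∈ s.powerset, ((if u ∈ t.powerset then W else 0) + 2 ^ k * E) := by
            apply Finset.sum_congr rfl
            intro u _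
            rw [Finset.sum_add_distrib, Finset.sum_ite_eq, Finset.sum_const, nsmul_eq_mul,
              hpow t ht]
        _ = W * (2 : ℝ) ^ ((s ∩ t).card) + 2 ^ k * 2 ^ k * E := by
            have hpi : s.powerset ∩ t.powerset = (s ∩ t).powerset := by
              ext u
              rw [mem_inter, mem_powerset, mem_powerset, mem_powerset, Finset.subset_inter_iff]
            rw [Finset.sum_add_distrib, Finset.sum_const, nsmul_eq_mul, hpow s hs,
              Finset.sum_ite_mem, Finset.sum_const, hpi, Finset.card_powerset,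
              nsmul_eq_mul]
            push_cast
            ring
    calc _ ≤ ∑ s ∈ SA a X, ∑ t ∈ SA a X, (W * (2 : ℝ) ^ ((s ∩ t).card) + 2 ^ k * 2 ^ k * E) :=
          Finset.sum_le_sum fun s hs => Finset.sum_le_sum fun t ht => h2 s hs t ht
      _ = _ := by
          rw [Finset.mul_sum]
          have : ∀ s ∈ SA a X, ∑ t ∈ SA a X, (W * (2 : ℝ) ^ ((s ∩ t).card) + 2 ^ k * 2 ^ k * E) =
              W * ∑ t ∈ SA a X, (2 : ℝ) ^ ((s ∩ t).card) + NA a X * (2 ^ k * 2 ^ k * E) := by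
            intro s _
            rw [Finset.sum_add_distrib, ← Finset.mul_sum, Finset.sum_const, nsmul_eq_mul, hcardS]
          rw [Finset.sum_congr rfl this, Finset.sum_add_distrib, Finset.sum_const, nsmul_eq_mul,
            hcardS]
          ring
  -- the pairs
  obtain ⟨R, hR⟩ : ∃ R, R = ∑ s ∈ SA a X, ∑ t ∈ SA a X, ((2 : ℝ) ^ ((s ∩ t).card) - 1) :=
    ⟨_, rfl⟩
  have hR1 : ∑ s ∈ SA a X, ∑ t ∈ SA a X, (2 : ℝ) ^ ((s ∩ t).card) = R + (NA a X) ^ 2 := by
    have h1 : ∀ s ∈ SA a X, ∑ t ∈ SA a X, ((2 : ℝ) ^ ((s ∩ t).card) - 1) =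
        ∑ t ∈ SA a X, (2 : ℝ) ^ ((s ∩ t).card) - NA a X := by
      intro s _
      rw [Finset.sum_sub_distrib, Finset.sum_const, nsmul_eq_mul, hcardS, mul_one]
    rw [hR, Finset.sum_congr rfl h1, Finset.sum_sub_distrib, Finset.sum_const, nsmul_eq_mul,
      hcardS]
    ring
  have hR2 : R ≤ ε ^ 3 / 4 * (NA a X) ^ 2 := by
    have h1 := pair_sum hCO hPA (PA a X) k h2kn (by omega)
    have h2 : R = ∑ s ∈ (PA a X).powersetCard k, ∑ t ∈ (PA a X).powersetCard k,
        ((2 : ℝ) ^ ((s ∩ t).card) - 1) := by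
      rw [hR, hk]
      rfl
    have h3 : NA a X = ((PA a X).card.choose k : ℝ) := by
      rw [hk]
      rfl
    rw [← h2, ← h3] at h1
    refine h1.trans ?_
    apply mul_le_mul_of_nonneg_right _ (by positivity)
    have hcr : (0 : ℝ) < (PA a X).card := by
      exact_mod_cast Nat.pos_of_ne_zero hcard
    have h4 : 8 * (k : ℝ) ^ 2 / (PA a X).card ≤ min 1 (ε ^ 3 / 12) := by
      rw [div_le_iff₀ hcr]
      have h5 : min 1 (ε ^ 3 / 12) = 8 * min (1 / 8) (ε ^ 3 / 96) := by
        rw [mul_min_of_nonneg _ _ (by norm_num)]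
        norm_num
        congr 1
        ring
      rw [h5]
      have h6 : (Real.log X) ^ (-((a - 2) / 2)) * (PA a X).card ≤
          min (1 / 8) (ε ^ 3 / 96) * (PA a X).card :=
        mul_le_mul_of_nonneg_right hX6.le hcr.le
      linarith
    have h5 : 0 ≤ 8 * (k : ℝ) ^ 2 / (PA a X).card := by positivity
    have h6 : Real.exp (8 * (k : ℝ) ^ 2 / (PA a X).card) ≤ 3 := by
      calc Real.exp (8 * (k : ℝ) ^ 2 / (PA a X).card) ≤ Real.exp 1 :=
            Real.exp_le_exp.2 (h4.trans (min_le_left _ _))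
        _ ≤ 3 := by linarith [Real.exp_one_lt_d9]
    calc 8 * (k : ℝ) ^ 2 / (PA a X).card * Real.exp (8 * (k : ℝ) ^ 2 / (PA a X).card) ≤
        (ε ^ 3 / 12) * 3 := mul_le_mul (h4.trans (min_le_right _ _)) h6 (Real.exp_pos _).le
          (by positivity)
      _ = ε ^ 3 / 4 := by ring
  -- variance
  have hvar : ∑ D ∈ DD z r X η, wt ρ D * (M D - NA a X) ^ 2 ≤
      (NA a X) ^ 2 * (ε ^ 3 / 4 * W + 3 * (2 ^ k * 2 ^ k * E)) := by
    have h1 : ∑ D ∈ DD z r X η, wt ρ D * (M D - NA a X) ^ 2 =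
        ∑ D ∈ DD z r X η, wt ρ D * (M D) ^ 2 - 2 * NA a X * ∑ D ∈ DD z r X η, wt ρ D * M D +
          (NA a X) ^ 2 * W := by
      rw [hW, Finset.mul_sum, Finset.mul_sum, ← Finset.sum_sub_distrib, ← Finset.sum_add_distrib]
      apply Finset.sum_congr rfl
      intro D _
      ring
    have h2 : (2 : ℝ) ^ k * E ≤ 2 ^ k * 2 ^ k * E := by
      have : (1 : ℝ) ≤ 2 ^ k := one_le_pow₀ (by norm_num)
      have h3 : 0 ≤ (2 : ℝ) ^ k * E := by positivity
      nlinarith
    have h3 : 2 * NA a X * (NA a X * W - NA a X * (2 ^ k * E)) ≤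
        2 * NA a X * ∑ D ∈ DD z r X η, wt ρ D * M D :=
      mul_le_mul_of_nonneg_left m1 (by positivity)
    have h4 : W * R ≤ W * (ε ^ 3 / 4 * (NA a X) ^ 2) := mul_le_mul_of_nonneg_left hR2 hW0
    have h5 : (NA a X) ^ 2 * ((2 : ℝ) ^ k * E) ≤ (NA a X) ^ 2 * (2 ^ k * 2 ^ k * E) :=
      mul_le_mul_of_nonneg_left h2 (by positivity)
    rw [h1]
    rw [hR1] at m2
    linarith
  -- Chebyshev
  obtain ⟨S, hS'⟩ : ∃ S, S = ∑ D ∈ (DD z r X η).filter (fun D => MD D (SA a X) (fun _ => 1) <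
    (1 - ε) * NA a X), wt ρ D := ⟨_, rfl⟩
  rw [← hS']
  have hcheb : S * (ε ^ 2 * (NA a X) ^ 2) ≤
      (NA a X) ^ 2 * (ε ^ 3 / 4 * W + 3 * (2 ^ k * 2 ^ k * E)) := by
    refine le_trans ?_ hvar
    rw [hS', Finset.sum_mul]
    calc _ ≤ ∑ D ∈ (DD z r X η).filter (fun D => MD D (SA a X) (fun _ => 1) <
          (1 - ε) * NA a X), wt ρ D * (M D - NA a X) ^ 2 := by
          apply Finset.sum_le_sum
          intro D hD
          rw [mem_filter] at hD
          apply mul_le_mul_of_nonneg_left _ (hwt D hD.1)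
          have h1 : M D < (1 - ε) * NA a X := by
            rw [hM]
            exact hD.2
          have h2 : 0 < ε * NA a X := by positivity
          nlinarith
      _ ≤ _ := Finset.sum_le_sum_of_subset_of_nonneg (Finset.filter_subset _ _)
          (fun D hD _ => mul_nonneg (hwt D hD) (sq_nonneg _))
  have hcheb2 : S * ε ^ 2 ≤ ε ^ 3 / 4 * W + 3 * (2 ^ k * 2 ^ k * E) := by
    have h1 : 0 < (NA a X) ^ 2 := by positivity
    have h2 : (NA a X) ^ 2 * (S * ε ^ 2) ≤
        (NA a X) ^ 2 * (ε ^ 3 / 4 * W + 3 * (2 ^ k * 2 ^ k * E)) := by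
      linarith
    exact le_of_mul_le_mul_left h2 h1
  have h4k : (2 : ℝ) ^ k * 2 ^ k * E ≤ (X : ℝ) ^ (1 - c / 2) := by
    rw [hE]
    calc (2 : ℝ) ^ k * 2 ^ k * (X : ℝ) ^ (1 - c) ≤
        (X : ℝ) ^ (c / 4) * (X : ℝ) ^ (c / 4) * (X : ℝ) ^ (1 - c) := by gcongr
      _ = (X : ℝ) ^ (1 - c / 2) := by
          rw [← Real.rpow_add hX0, ← Real.rpow_add hX0]
          congr 1
          ring
  have hWle : W ≤ 2 * WW z X η ρ := by
    have e7 := sum_DD hV0 hr.1 hη (by omega : 1 ≤ X) (by linarith : c ≤ 1) hS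
    have e8 := (abs_le.1 e7).2
    have e10 : (X : ℝ) ^ c ≤ (X : ℝ) ^ (1 - c / 2) :=
      Real.rpow_le_rpow_of_exponent_le hX1' (by linarith)
    have e11 : 0 ≤ 6 / ε ^ 3 * (X : ℝ) ^ (1 - c / 2) := by positivity
    rw [← hW] at e8
    linarith
  have hfin : 3 * (X : ℝ) ^ (1 - c / 2) ≤ ε ^ 3 / 2 * WW z X η ρ := by
    have e10 : 0 ≤ (X : ℝ) ^ (1 - c / 2) := by positivity
    have e11 : 6 / ε ^ 3 * (X : ℝ) ^ (1 - c / 2) ≤ WW z X η ρ := by linarith
    rw [div_mul_eq_mul_div, div_le_iff₀ (by positivity)] at e11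
    linarith
  have h3 : S * ε ^ 2 ≤ (ε * WW z X η ρ) * ε ^ 2 := by
    have h4 : ε ^ 3 / 4 * W ≤ ε ^ 3 / 4 * (2 * WW z X η ρ) :=
      mul_le_mul_of_nonneg_left hWle (by positivity)
    linarith
  exact le_of_mul_le_mul_right h3 (by positivity)

end Run7.h688.CG
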