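import Pool.Agent.H38R2.CG2.ERR
import Pool.Agent.H38R2.CG.LM2
import Pool.Agent.H38R2.CG.KR

/-! CG2: common tools for the sums over D. -/

set_option autoImplicit false

namespace Run7.h688.CG

open Finset Filter Pool.Agent.H38R2.CG Pool.Agent.H38R2.CG2 Pool.Agent.H38R2.CG.LM2h
  Pool.Agent.H38R2.CG2.ERRh
open scoped Classical

/-- the size of WW -/
theorem WW_big {a : ℝ} (ha : 2 < a) (z : ℕ) {η : ℝ} (hη : 0 < η) (C0 : ℕ) (K : ℝ) :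
    ∃ X0 : ℕ, ∀ X ≥ X0, 3 ≤ X ∧ ∀ (P : Finset ℕ) (δ : ℝ) (ρ : ℕ → ℝ), SWt z X P δ C0 ρ →
      0 < GG X ρ ∧ K * (X : ℝ) ^ (1 - cc a / 2) ≤ WW z X η ρ := by
  obtain ⟨c, hc⟩ : ∃ c, c = cc a := ⟨_, rfl⟩
  have hc0 : 0 < c := hc ▸ cc_pos ha
  have hc1 : c < 1 / 32 := hc ▸ cc_lt ha
  have hQ : (0 : ℝ) < Qz z := by exact_mod_cast Qz_pos z
  obtain ⟨X0, hX0⟩ := eventually_atTop.1 ((ev_logpow (c / 4) (by positivity) C0).and
    ((ev_const (c / 4) (by positivity) (|K| * Qz z / η)).and (eventually_ge_atTop 3)))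
  refine ⟨X0, fun X hX => ?_⟩
  obtain ⟨g1, g2, hX3⟩ := hX0 X hX
  refine ⟨hX3, fun P δ ρ hS => ?_⟩
  have hXr : (3 : ℝ) ≤ X := by exact_mod_cast hX3
  have hXp : (0 : ℝ) < X := by linarith
  have hlog : 0 < Real.log X := Real.log_pos (by linarith)
  have hlow := hS.low
  have hL : 0 < (Real.log X) ^ C0 := by positivity
  have hG : 0 < GG X ρ := lt_of_lt_of_le (by positivity) hlow
  refine ⟨hG, ?_⟩
  rw [← hc]
  unfold WW
  have h1 : 1 ≤ GG X ρ * (X : ℝ) ^ (c / 4) := by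
    calc (1 : ℝ) = ((Real.log X) ^ C0)⁻¹ * (Real.log X) ^ C0 := (inv_mul_cancel₀ hL.ne').symm
      _ ≤ GG X ρ * (X : ℝ) ^ (c / 4) := mul_le_mul hlow g1 hL.le hG.le
  have h2 : |K| ≤ η / Qz z * (X : ℝ) ^ (c / 4) := by
    rw [div_le_iff₀ hη] at g2
    rw [div_mul_eq_mul_div, le_div_iff₀ hQ]
    linarith
  have h3 : (X : ℝ) = (X : ℝ) ^ (1 - c / 2) * ((X : ℝ) ^ (c / 4) * (X : ℝ) ^ (c / 4)) := by
    rw [← Real.rpow_add hXp, ← Real.rpow_add hXp]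
    ring_nf
    rw [Real.rpow_one]
  have h4 : 0 < (X : ℝ) ^ (1 - c / 2) := by positivity
  have h5 : 0 < (X : ℝ) ^ (c / 4) := by positivity
  calc K * (X : ℝ) ^ (1 - c / 2) ≤ |K| * (X : ℝ) ^ (1 - c / 2) :=
        mul_le_mul_of_nonneg_right (le_abs_self K) h4.le
    _ ≤ (η / Qz z * (X : ℝ) ^ (c / 4)) * (X : ℝ) ^ (1 - c / 2) :=
        mul_le_mul_of_nonneg_right h2 h4.le
    _ = (η / Qz z * (X : ℝ) ^ (c / 4)) * (X : ℝ) ^ (1 - c / 2) * 1 := (mul_one _).symm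
    _ ≤ (η / Qz z * (X : ℝ) ^ (c / 4)) * (X : ℝ) ^ (1 - c / 2) * (GG X ρ * (X : ℝ) ^ (c / 4)) := by
        gcongr
    _ = η * ((X : ℝ) ^ (1 - c / 2) * ((X : ℝ) ^ (c / 4) * (X : ℝ) ^ (c / 4))) / Qz z *
          GG X ρ := by ring
    _ = η * X / Qz z * GG X ρ := by rw [← h3]

theorem yA_tendsto {a : ℝ} (ha : 2 < a) : Tendsto (fun X : ℕ => yA a X) atTop atTop := by
  unfold yA
  refine tendsto_nat_floor_atTop.comp ?_
  refine Tendsto.atTop_div_const (by norm_num) ?_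
  exact (tendsto_rpow_atTop (by linarith)).comp
    (Real.tendsto_log_atTop.comp tendsto_natCast_atTop_atTop)

/-- the primes of the family are large -/
theorem PA_large {a : ℝ} (ha : 2 < a) (z : ℕ) : ∃ X0 : ℕ, ∀ X ≥ X0, ∀ p ∈ PA a X,
    p.Prime ∧ z < p ∧ 2 < p ∧ Odd p ∧ ¬ p ∣ Qz z := by
  obtain ⟨X0, hX0⟩ := eventually_atTop.1 ((yA_tendsto ha).eventually_ge_atTop (z + 2))
  refine ⟨X0, fun X hX p hp => ?_⟩
  have h1 := hX0 X hX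
  have hpp := mem_PA hp
  unfold PA PP at hp
  rw [mem_filter, mem_Ioc] at hp
  have h2 : 2 < p := by omega
  refine ⟨hpp, by omega, h2, hpp.odd_of_ne_two (by omega), fun h => ?_⟩
  have := (sq_dvd_Qz hpp h (by omega)).1
  rw [mem_filter, mem_Icc] at this
  omega

theorem DD_one {z r X : ℕ} {η : ℝ} : (DD z r X η).filter (fun D => 1 ∣ D) = DD z r X η :=
  Finset.filter_true_of_mem fun _ _ => one_dvd _

theorem mem_DD {z r X D : ℕ} {η : ℝ} (h : D ∈ DD z r X η) :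
    X < D ∧ D ≤ ⌊(1 + η) * X⌋₊ ∧ D % Qz z = r := by
  unfold DD at h
  rw [mem_filter, mem_Ioc] at h
  exact ⟨h.1.1, h.1.2, h.2⟩

theorem floor_le_two {X : ℕ} {η : ℝ} (hη : 0 < η) (hη1 : η ≤ 1) : ⌊(1 + η) * (X : ℝ)⌋₊ ≤ 2 * X := by
  have hX : (0 : ℝ) ≤ X := Nat.cast_nonneg _
  have h1 : ((⌊(1 + η) * (X : ℝ)⌋₊ : ℕ) : ℝ) ≤ (1 + η) * X := Nat.floor_le (by positivity)
  have h2 : ((⌊(1 + η) * (X : ℝ)⌋₊ : ℕ) : ℝ) ≤ ((2 * X : ℕ) : ℝ) := by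
    push_cast
    nlinarith
  exact_mod_cast h2

/-- total weight -/
theorem sum_DD (hV0 : P2_V0) {z r X : ℕ} {η : ℝ} {P : Finset ℕ} {δ : ℝ} {C0 : ℕ} {ρ : ℕ → ℝ}
    (hr : r < Qz z) (hη : 0 < η) (hX : 1 ≤ X) (hδ : δ ≤ 1) (hS : SWt z X P δ C0 ρ) :
    |∑ D ∈ DD z r X η, wt ρ D - WW z X η ρ| ≤ 2 * (X : ℝ) ^ δ := by
  have h1 := hV0 z r X η P δ C0 ρ 1 hr hη hX hδ hS le_rfl (Nat.coprime_one_left _)
  rw [DD_one] at h1
  have h3 : ∑ d ∈ Finset.Icc 1 X, ρ d / (Nat.lcm d 1 : ℝ) = GG X ρ := by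
    unfold GG
    refine Finset.sum_congr rfl fun d _ => ?_
    rw [Nat.lcm_one_right]
  rw [h3] at h1
  exact h1

theorem jac_prodS (D : ℤ) (u : Finset ℕ) (hu : ∀ p ∈ u, p.Prime) :
    jacobiSym D (prodS u) = ∏ p ∈ u, jacobiSym D p := by
  induction u using Finset.induction_on with
  | empty => simp [prodS]
  | insert p u hp ih =>
    have hp1 := hu p (Finset.mem_insert_self p u)
    have hu1 : ∀ q ∈ u, q.Prime := fun q hq => hu q (Finset.mem_insert_of_mem hq)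
    have h1 : prodS (insert p u) = p * prodS u := Finset.prod_insert hp
    have : NeZero p := ⟨hp1.ne_zero⟩
    have : NeZero (prodS u) := ⟨Finset.prod_ne_zero_iff.2 fun q hq => (hu1 q hq).ne_zero⟩
    rw [h1, jacobiSym.mul_right, ih hu1, Finset.prod_insert hp]

/-- expansion of the number of ideals -/
theorem prod_chi (D : ℕ) (s : Finset ℕ) (hs : ∀ p ∈ s, p.Prime ∧ Odd p) :
    ∏ p ∈ s, (1 + (chi D p : ℝ)) =
      ∑ u ∈ s.powerset, ((jacobiSym (D : ℤ) (prodS u) : ℤ) : ℝ) := by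
  rw [Finset.prod_one_add]
  apply Finset.sum_congr rfl
  intro u hu
  rw [mem_powerset] at hu
  rw [jac_prodS _ _ (fun p hp => (hs p (hu hp)).1)]
  push_cast
  apply Finset.prod_congr rfl
  intro p hp
  rw [KRh.chi_odd (hs p (hu hp)).2]

theorem prodS_pos {u : Finset ℕ} (hu : ∀ p ∈ u, p.Prime) : 1 ≤ prodS u :=
  Finset.prod_pos fun p hp => (hu p hp).pos

theorem prodS_coprime {u : Finset ℕ} {Q : ℕ} (hu : ∀ p ∈ u, p.Prime ∧ ¬ p ∣ Q) :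
    (prodS u).Coprime Q :=
  Nat.Coprime.prod_left fun p hp => (Nat.Prime.coprime_iff_not_dvd (hu p hp).1).2 (hu p hp).2

theorem prodS_mono {u s : Finset ℕ} (h : u ⊆ s) (hs : ∀ p ∈ s, p.Prime) : prodS u ≤ prodS s :=
  Finset.prod_le_prod_of_subset_of_one_le' h fun p hp _ => (hs p hp).one_lt.le

theorem prodS_size (hSZ : P2_SZ) {a : ℝ} (ha : 2 < a) : ∃ X0 : ℕ, ∀ X ≥ X0, ∀ s ∈ SA a X,
    (prodS s : ℝ) ≤ (X : ℝ) ^ (th a + cc a) := by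
  obtain ⟨X0, hX0⟩ := hSZ a ha
  refine ⟨X0, fun X hX s hs => ?_⟩
  have h1 := (hX0 X hX ∅ s (Finset.empty_subset _) (mem_SA hs).1 (by simp [(mem_SA hs).2])).2
  simpa [prodS] using h1

end Run7.h688.CG
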