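import Pool.Agent.H38R2.CG2.ERR
import Pool.Agent.H38R2.CG.LM2

/-! CG2, task V1: cancellation of Jacobi symbols. -/

set_option autoImplicit false

namespace Run7.h688.CG

open Finset Filter Pool.Agent.H38R2.CG Pool.Agent.H38R2.CG2 Pool.Agent.H38R2.CG.LM2h
  Pool.Agent.H38R2.CG2.ERRh
open scoped Classical

/-- the weights as a sum over a fixed range -/
theorem wt_eq {z X : ℕ} {P : Finset ℕ} {δ : ℝ} {C0 : ℕ} {ρ : ℕ → ℝ} (hS : SWt z X P δ C0 ρ)
    {D : ℕ} (hD : 1 ≤ D) :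
    wt ρ D = ∑ d ∈ (Icc 1 ⌊(X : ℝ) ^ δ⌋₊).filter (fun d => d ∣ D), ρ d := by
  unfold wt
  symm
  apply Finset.sum_subset
  · intro d hd
    rw [mem_filter] at hd
    rw [Nat.mem_divisors]
    exact ⟨hd.2, by omega⟩
  · intro d hd hn
    by_contra h0
    obtain ⟨h1, h2, -⟩ := hS.supp d h0
    apply hn
    rw [mem_filter, mem_Icc]
    exact ⟨⟨h1, Nat.le_floor h2⟩, (Nat.mem_divisors.1 hd).1⟩

/-- progressions: a general modulus -/
lemma w_bound (C : ℝ) (hC : 0 < C)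
    (hPV : ∀ (q : ℕ) (χ : DirichletCharacter ℂ q), 2 ≤ q → χ ≠ 1 →
    ∀ a b : ℕ, ‖∑ n ∈ Finset.Ioc a b, χ (n : ZMod q)‖ ≤ C * √(q : ℝ) * Real.log q)
    (m : ℕ) (hodd : Odd m) (hsq : ¬ IsSquare m) (Q r w : ℕ) (hrQ : r < Q) (hw : 1 ≤ w)
    (hwQ : w.Coprime Q) (hmQ : m.Coprime Q) (A B : ℕ) (hAB : A ≤ B) :
    |∑ D ∈ ((Ioc A B).filter (fun D => D % Q = r)).filter (fun D => w ∣ D),
      ((jacobiSym (D : ℤ) m : ℤ) : ℝ)| ≤ C * √(m : ℝ) * Real.log m := by
  have hm0 : m ≠ 0 := by rintro rfl; simp at hodd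
  by_cases hem : w.Coprime m
  · have hco : Q.Coprime w := hwQ.symm
    obtain ⟨c, hc1, hc2⟩ := Nat.chineseRemainder hco r 0
    have hW0 : 0 < Q * w := Nat.mul_pos (by omega) hw
    have hcW : c % (Q * w) < Q * w := Nat.mod_lt _ hW0
    have hWm : (Q * w).Coprime m := Nat.Coprime.mul_left hmQ.symm hem
    have h1 := ap_sum C hPV m hodd hsq (Q * w) (c % (Q * w)) hcW hWm A B hAB
    have h2 : ((Ioc A B).filter (fun D => D % Q = r)).filter (fun D => w ∣ D) =
        (Ioc A B).filter (fun D => D % (Q * w) = c % (Q * w)) := by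
      rw [Finset.filter_filter]
      apply Finset.filter_congr
      intro D _
      have h3 : D % (Q * w) = c % (Q * w) ↔ D ≡ c [MOD Q * w] := Iff.rfl
      rw [h3, ← Nat.modEq_and_modEq_iff_modEq_mul hco]
      have h4 : D % Q = r ↔ D ≡ r [MOD Q] := by
        unfold Nat.ModEq
        rw [Nat.mod_eq_of_lt hrQ]
      rw [h4, ← Nat.modEq_zero_iff_dvd]
      constructor
      · rintro ⟨h5, h6⟩
        exact ⟨h5.trans hc1.symm, h6.trans hc2.symm⟩
      · rintro ⟨h5, h6⟩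
        exact ⟨h5.trans hc1, h6.trans hc2⟩
    rw [h2]
    exact h1
  · have h1 : ∑ D ∈ ((Ioc A B).filter (fun D => D % Q = r)).filter (fun D => w ∣ D),
      ((jacobiSym (D : ℤ) m : ℤ) : ℝ) = 0 := by
      apply Finset.sum_eq_zero
      intro D hD
      rw [mem_filter] at hD
      have : NeZero m := ⟨hm0⟩
      have h2 : jacobiSym (D : ℤ) m = 0 := by
        rw [jacobiSym.eq_zero_iff_not_coprime, Int.gcd_natCast_natCast]
        intro h3
        exact hem (Nat.Coprime.coprime_dvd_left hD.2 h3)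
      rw [h2]
      norm_num
    rw [h1, abs_zero]
    have : 0 ≤ Real.log (m : ℝ) := Real.log_natCast_nonneg m
    positivity

/-- weighted sum over the multiples of `w` -/
lemma ww_bound (C : ℝ) (hC : 0 < C)
    (hPV : ∀ (q : ℕ) (χ : DirichletCharacter ℂ q), 2 ≤ q → χ ≠ 1 →
    ∀ a b : ℕ, ‖∑ n ∈ Finset.Ioc a b, χ (n : ZMod q)‖ ≤ C * √(q : ℝ) * Real.log q)
    {z X : ℕ} {P : Finset ℕ} {δ : ℝ} {C0 : ℕ} {ρ : ℕ → ℝ} (hS : SWt z X P δ C0 ρ)
    (m : ℕ) (hodd : Odd m) (hsq : ¬ IsSquare m) (r w : ℕ) (hrQ : r < Qz z) (hw : 1 ≤ w)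
    (hwQ : w.Coprime (Qz z)) (hmQ : m.Coprime (Qz z)) (A B : ℕ) (hAB : A ≤ B) :
    |∑ D ∈ ((Ioc A B).filter (fun D => D % Qz z = r)).filter (fun D => w ∣ D),
      wt ρ D * ((jacobiSym (D : ℤ) m : ℤ) : ℝ)| ≤
        (X : ℝ) ^ δ * (C * √(m : ℝ) * Real.log m) := by
  obtain ⟨Y, hY⟩ : ∃ Y, Y = ⌊(X : ℝ) ^ δ⌋₊ := ⟨_, rfl⟩
  obtain ⟨K, hK⟩ : ∃ K, K = C * √(m : ℝ) * Real.log m := ⟨_, rfl⟩
  have hK0 : 0 ≤ K := by
    have : 0 ≤ Real.log (m : ℝ) := Real.log_natCast_nonneg m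
    rw [hK]
    positivity
  have e1 : ∑ D ∈ ((Ioc A B).filter (fun D => D % Qz z = r)).filter (fun D => w ∣ D),
      wt ρ D * ((jacobiSym (D : ℤ) m : ℤ) : ℝ) =
      ∑ d ∈ Icc 1 Y, ρ d * ∑ D ∈ ((Ioc A B).filter (fun D => D % Qz z = r)).filter
        (fun D => Nat.lcm w d ∣ D), ((jacobiSym (D : ℤ) m : ℤ) : ℝ) := by
    have h1 : ∀ D ∈ ((Ioc A B).filter (fun D => D % Qz z = r)).filter (fun D => w ∣ D),
        wt ρ D * ((jacobiSym (D : ℤ) m : ℤ) : ℝ) =
        ∑ d ∈ Icc 1 Y, if d ∣ D then ρ d * ((jacobiSym (D : ℤ) m : ℤ) : ℝ) else 0 := by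
      intro D hD
      rw [mem_filter, mem_filter, mem_Ioc] at hD
      rw [wt_eq hS (by omega : 1 ≤ D), ← hY, Finset.sum_mul, Finset.sum_filter]
    rw [Finset.sum_congr rfl h1, Finset.sum_comm]
    apply Finset.sum_congr rfl
    intro d _
    rw [← Finset.sum_filter, Finset.mul_sum, Finset.filter_filter]
    apply Finset.sum_congr _ (fun _ _ => rfl)
    apply Finset.filter_congr
    intro D _
    rw [Nat.lcm_dvd_iff]
  rw [e1, ← hK]
  calc |∑ d ∈ Icc 1 Y, ρ d * ∑ D ∈ ((Ioc A B).filter (fun D => D % Qz z = r)).filter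
        (fun D => Nat.lcm w d ∣ D), ((jacobiSym (D : ℤ) m : ℤ) : ℝ)| ≤
      ∑ d ∈ Icc 1 Y, |ρ d * ∑ D ∈ ((Ioc A B).filter (fun D => D % Qz z = r)).filter
        (fun D => Nat.lcm w d ∣ D), ((jacobiSym (D : ℤ) m : ℤ) : ℝ)| :=
        Finset.abs_sum_le_sum_abs _ _
    _ ≤ ∑ d ∈ Icc 1 Y, K := by
        apply Finset.sum_le_sum
        intro d hd
        rw [mem_Icc] at hd
        by_cases h0 : ρ d = 0
        · rw [h0, zero_mul, abs_zero]
          exact hK0
        · obtain ⟨h1, h2, h3, h4, -⟩ := hS.supp d h0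
          rw [abs_mul]
          have h5 : (Nat.lcm w d).Coprime (Qz z) :=
            Nat.Coprime.coprime_dvd_left (Nat.lcm_dvd_mul w d) (Nat.Coprime.mul_left hwQ h4)
          have h6 := w_bound C hC hPV m hodd hsq (Qz z) r (Nat.lcm w d) hrQ
            (Nat.lcm_pos hw h1) h5 hmQ A B hAB
          rw [← hK] at h6
          calc _ ≤ 1 * K := mul_le_mul (hS.bd d) h6 (abs_nonneg _) zero_le_one
            _ = K := one_mul K
    _ = Y * K := by
        rw [Finset.sum_const, Nat.card_Icc, Nat.add_sub_cancel, nsmul_eq_mul]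
    _ ≤ (X : ℝ) ^ δ * K := by
        apply mul_le_mul_of_nonneg_right _ hK0
        rw [hY]
        exact Nat.floor_le (by positivity)

theorem T2_V1 : P_PV → P2_V1 := by
  rintro ⟨C, hC, hPV⟩ a ha z r hr η hη hη1 C0
  obtain ⟨c, hc⟩ : ∃ c, c = cc a := ⟨_, rfl⟩
  have hc0 : 0 < c := hc ▸ cc_pos ha
  have hc1 : c < 1 / 32 := hc ▸ cc_lt ha
  have hth : th a = 1 - 8 * c := by rw [hc]; rfl
  obtain ⟨X0, hX0⟩ := eventually_atTop.1 ((ev_log (c / 2) (by positivity)).and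
    ((ev_const (c / 2) (by positivity) (4 * C)).and (eventually_ge_atTop 2)))
  refine ⟨X0, fun X hX ρ hS m hm1 hmQ hsq => ?_⟩
  obtain ⟨g1, g2, hX2⟩ := hX0 X hX
  have hXr : (2 : ℝ) ≤ X := by exact_mod_cast hX2
  have hX0' : (0 : ℝ) < X := by linarith
  have hX1' : (1 : ℝ) ≤ X := by linarith
  have hlX : 0 ≤ Real.log X := Real.log_nonneg hX1'
  have hgrow : 4 * C * Real.log X ≤ (X : ℝ) ^ c := by
    calc 4 * C * Real.log X ≤ (X : ℝ) ^ (c / 2) * (X : ℝ) ^ (c / 2) := by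
          apply mul_le_mul g2 (by linarith) hlX (by positivity)
      _ = (X : ℝ) ^ c := by
          rw [← Real.rpow_add hX0']
          congr 1
          ring
  obtain ⟨B, hB⟩ : ∃ B, B = ⌊(1 + η) * X⌋₊ := ⟨_, rfl⟩
  have hXB : X ≤ B := by
    rw [hB]
    apply Nat.le_floor
    nlinarith
  have hB2 : B ≤ 2 * X := by
    have h1 : (B : ℝ) ≤ (1 + η) * X := by
      rw [hB]
      exact Nat.floor_le (by positivity)
    have h2 : (B : ℝ) ≤ 2 * X := by nlinarith
    exact_mod_cast h2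
  have hodd : Odd m := by
    have h2Q : 2 ∣ Qz z := dvd_trans (by norm_num) (dvd16 z)
    have := Nat.Coprime.coprime_dvd_right h2Q hmQ
    exact Nat.coprime_two_right.1 this
  have hQ0 := Qz_pos z
  have hrQ := hr.1
  have hm0' : (0 : ℝ) < m := by exact_mod_cast hm1
  have hlogm : 0 ≤ Real.log (m : ℝ) := Real.log_natCast_nonneg m
  have hlm : ∀ β : ℝ, β ≤ 2 → (m : ℝ) ≤ (X : ℝ) ^ β → Real.log m ≤ 2 * Real.log X := by
    intro β hβ h
    have h1 := Real.log_le_log hm0' h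
    rw [Real.log_rpow hX0'] at h1
    nlinarith
  have hsm : ∀ β : ℝ, (m : ℝ) ≤ (X : ℝ) ^ β → √(m : ℝ) ≤ (X : ℝ) ^ (β / 2) := by
    intro β h
    rw [Real.sqrt_le_left (by positivity)]
    calc (m : ℝ) ≤ (X : ℝ) ^ β := h
      _ = ((X : ℝ) ^ (β / 2)) ^ 2 := by
          rw [← Real.rpow_natCast, ← Real.rpow_mul hX0'.le]
          norm_num
  rw [← hc] at hS ⊢
  rw [hth]
  constructor
  · intro hmX
    have h1 := ww_bound C hC hPV hS m hodd hsq r 1 hrQ le_rfl (Nat.coprime_one_left _) hmQ X B hXB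
    have h2 : ((Ioc X B).filter (fun D => D % Qz z = r)).filter (fun D => 1 ∣ D) =
        DD z r X η := by
      rw [Finset.filter_true_of_mem (fun D _ => one_dvd D), hB]
      rfl
    rw [h2] at h1
    refine h1.trans ?_
    have h3 := hlm _ (by linarith) hmX
    have h4 := hsm _ hmX
    calc (X : ℝ) ^ c * (C * √(m : ℝ) * Real.log m) ≤
        (X : ℝ) ^ c * (C * (X : ℝ) ^ ((2 * (1 - 8 * c) + 2 * c) / 2) * (2 * Real.log X)) := by
          gcongr
      _ = ((X : ℝ) ^ c * (X : ℝ) ^ ((2 * (1 - 8 * c) + 2 * c) / 2)) * (2 * C * Real.log X) := by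
          ring
      _ ≤ ((X : ℝ) ^ c * (X : ℝ) ^ ((2 * (1 - 8 * c) + 2 * c) / 2)) * (X : ℝ) ^ c := by
          apply mul_le_mul_of_nonneg_left _ (by positivity)
          have : 0 ≤ C * Real.log X := by positivity
          linarith
      _ = (X : ℝ) ^ (1 - 5 * c) := by
          rw [← Real.rpow_add hX0', ← Real.rpow_add hX0']
          congr 1
          ring
      _ ≤ (X : ℝ) ^ (1 - c) := Real.rpow_le_rpow_of_exponent_le hX1' (by linarith)
  · intro hmX
    obtain ⟨N, hN⟩ : ∃ N, N = Nat.sqrt (2 * X) := ⟨_, rfl⟩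
    have hsum : ∑ D ∈ FD z r X η, wt ρ D * ((jacobiSym (D : ℤ) m : ℤ) : ℝ) =
        ∑ e ∈ (Icc 1 N).filter (fun e => e.Coprime (Qz z)),
          ((ArithmeticFunction.moebius e : ℤ) : ℝ) *
          ∑ D ∈ ((Ioc X B).filter (fun D => D % Qz z = r)).filter (fun D => e ^ 2 ∣ D),
            wt ρ D * ((jacobiSym (D : ℤ) m : ℤ) : ℝ) := by
      unfold FD DD
      rw [← hB, Finset.sum_filter]
      have h1 : ∀ D ∈ (Ioc X B).filter (fun D => D % Qz z = r),
          (if IsFund D then wt ρ D * ((jacobiSym (D : ℤ) m : ℤ) : ℝ) else 0) =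
          ∑ e ∈ (Icc 1 N).filter (fun e => e.Coprime (Qz z)),
            if e ^ 2 ∣ D then ((ArithmeticFunction.moebius e : ℤ) : ℝ) *
              (wt ρ D * ((jacobiSym (D : ℤ) m : ℤ) : ℝ)) else 0 := by
        intro D hD
        rw [mem_filter, mem_Ioc] at hD
        have h2 := isFund_iff hr hD.2 (by omega)
        have h3 := moebius_id (Qz z) D N (by omega) (fun e he => by
          have h4 := Nat.le_of_dvd (by omega) he
          rw [hN]
          exact Nat.le_sqrt'.2 (by omega))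
        rw [← Finset.sum_filter, ← Finset.sum_mul, Finset.filter_filter]
        have h6 : (∑ e ∈ (Icc 1 N).filter (fun e => e.Coprime (Qz z) ∧ e ^ 2 ∣ D),
            ((ArithmeticFunction.moebius e : ℤ) : ℝ)) =
            (((if (∀ l : ℕ, l.Prime → ¬ l ∣ Qz z → ¬ l ^ 2 ∣ D) then 1 else 0 : ℤ)) : ℝ) := by
          rw [← h3]
          push_cast
          rfl
        rw [h6]
        by_cases h7 : IsFund D
        · rw [if_pos h7, if_pos (h2.1 h7)]
          norm_num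
        · rw [if_neg h7, if_neg (fun h8 => h7 (h2.2 h8))]
          norm_num
      rw [Finset.sum_congr rfl h1, Finset.sum_comm]
      apply Finset.sum_congr rfl
      intro e _
      rw [Finset.mul_sum, Finset.sum_filter (fun D => e ^ 2 ∣ D)]
    rw [hsum]
    have h3 := hlm _ (by linarith) hmX
    have h4 := hsm _ hmX
    have hNle : (N : ℝ) ≤ 2 * (X : ℝ) ^ (1 / 2 : ℝ) := by
      have h5 : N ^ 2 ≤ 2 * X := by
        rw [hN]
        exact Nat.sqrt_le' _
      have h6 : (N : ℝ) ^ 2 ≤ 2 * X := by exact_mod_cast h5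
      have h7 : ((X : ℝ) ^ (1 / 2 : ℝ)) ^ 2 = X := by
        rw [← Real.rpow_natCast, ← Real.rpow_mul hX0'.le]
        norm_num
      have h8 : 0 ≤ (X : ℝ) ^ (1 / 2 : ℝ) := by positivity
      nlinarith [(Nat.cast_nonneg N : (0 : ℝ) ≤ N)]
    obtain ⟨K, hK⟩ : ∃ K, K = (X : ℝ) ^ c * (C * √(m : ℝ) * Real.log m) := ⟨_, rfl⟩
    have hK0 : 0 ≤ K := by rw [hK]; positivity
    have hKle : K ≤ (X : ℝ) ^ c * (C * (X : ℝ) ^ ((1 - 8 * c + 2 * c) / 2) *
        (2 * Real.log X)) := by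
      rw [hK]
      gcongr
    calc |∑ e ∈ (Icc 1 N).filter (fun e => e.Coprime (Qz z)),
          ((ArithmeticFunction.moebius e : ℤ) : ℝ) *
          ∑ D ∈ ((Ioc X B).filter (fun D => D % Qz z = r)).filter (fun D => e ^ 2 ∣ D),
            wt ρ D * ((jacobiSym (D : ℤ) m : ℤ) : ℝ)| ≤
        ∑ e ∈ (Icc 1 N).filter (fun e => e.Coprime (Qz z)),
          |((ArithmeticFunction.moebius e : ℤ) : ℝ) *
          ∑ D ∈ ((Ioc X B).filter (fun D => D % Qz z = r)).filter (fun D => e ^ 2 ∣ D),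
            wt ρ D * ((jacobiSym (D : ℤ) m : ℤ) : ℝ)| := Finset.abs_sum_le_sum_abs _ _
      _ ≤ ∑ e ∈ (Icc 1 N).filter (fun e => e.Coprime (Qz z)), K := by
          apply Finset.sum_le_sum
          intro e he
          rw [mem_filter, mem_Icc] at he
          rw [abs_mul]
          have h1 : |((ArithmeticFunction.moebius e : ℤ) : ℝ)| ≤ 1 := by
            exact_mod_cast ArithmeticFunction.abs_moebius_le_one
          have h2 := ww_bound C hC hPV hS m hodd hsq r (e ^ 2) hrQ (Nat.one_le_pow _ _ he.1.1)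
            (Nat.Coprime.pow_left 2 he.2) hmQ X B hXB
          rw [← hK] at h2
          calc _ ≤ 1 * K := mul_le_mul h1 h2 (abs_nonneg _) zero_le_one
            _ = K := one_mul K
      _ ≤ ∑ e ∈ Icc 1 N, K :=
          Finset.sum_le_sum_of_subset_of_nonneg (Finset.filter_subset _ _) (fun _ _ _ => hK0)
      _ = N * K := by
          rw [Finset.sum_const, Nat.card_Icc, Nat.add_sub_cancel, nsmul_eq_mul]
      _ ≤ (2 * (X : ℝ) ^ (1 / 2 : ℝ)) * ((X : ℝ) ^ c * (C * (X : ℝ) ^ ((1 - 8 * c + 2 * c) / 2) *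
        (2 * Real.log X))) := mul_le_mul hNle hKle hK0 (by positivity)
      _ = ((X : ℝ) ^ (1 / 2 : ℝ) * (X : ℝ) ^ c * (X : ℝ) ^ ((1 - 8 * c + 2 * c) / 2)) *
          (4 * C * Real.log X) := by ring
      _ ≤ ((X : ℝ) ^ (1 / 2 : ℝ) * (X : ℝ) ^ c * (X : ℝ) ^ ((1 - 8 * c + 2 * c) / 2)) *
          (X : ℝ) ^ c := mul_le_mul_of_nonneg_left hgrow (by positivity)
      _ = (X : ℝ) ^ (1 - c) := by
          rw [← Real.rpow_add hX0', ← Real.rpow_add hX0', ← Real.rpow_add hX0']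
          congr 1
          ring

end Run7.h688.CG
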